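import Pool.Agent.X284.LI.MainC
import Pool.Agent.W460.CY.MFinn
import Pool.Agent.X284.KS.Nf

/-!
# Absolutely convergent series, averaged over the conjugates of a character
-/
set_option autoImplicit false

namespace Pool.Agent.X284.NC

open Finset
open Pool.Agent.W192.CY
open Pool.Agent.W193.CY (ev_small order_le)
open Pool.Agent.W460.CYM (Em_spec)
open Pool.Agent.W916.CY (ai ai_abs)
open Pool.Agent.W372.CY (AA AA_norm AA_one sum_cg ai_nonneg)
open Pool.Agent.X284.LI (AA_cast)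

/-- coefficients of an absolutely convergent series -/
structure Ac (a : ℕ → ℂ) (C : ℝ) : Prop where
  zero : a 0 = 0
  pos : 0 < C
  le : ∀ n : ℕ, 1 ≤ n → ‖a n‖ ≤ C * (n : ℝ) ^ (-(5 / 4) : ℝ)

/-- the sum of the powers -/
noncomputable def Z98 : ℝ := ∑' n : ℕ, (n : ℝ) ^ (-(9 / 8) : ℝ)

theorem summ98 : Summable (fun n : ℕ => (n : ℝ) ^ (-(9 / 8) : ℝ)) :=
  Real.summable_nat_rpow.2 (by norm_num)

theorem Z98_nonneg : 0 ≤ Z98 := tsum_nonneg fun n => by positivity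

theorem Ac.le' {a : ℕ → ℂ} {C : ℝ} (h : Ac a C) (n : ℕ) : ‖a n‖ ≤ C * (n : ℝ) ^ (-(9 / 8) : ℝ) := by
  have hC := h.pos
  rcases Nat.eq_zero_or_pos n with rfl | hn
  · rw [h.zero, norm_zero]; positivity
  · refine (h.le n hn).trans ?_
    have hn1 : (1 : ℝ) ≤ n := by exact_mod_cast hn
    have := Real.rpow_le_rpow_of_exponent_le hn1 (show (-(5 / 4) : ℝ) ≤ -(9 / 8) by norm_num)
    gcongr

theorem Ac.summ {a : ℕ → ℂ} {C : ℝ} (h : Ac a C) : Summable (fun n => ‖a n‖) :=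
  Summable.of_nonneg_of_le (fun _ => norm_nonneg _) h.le' (summ98.mul_left C)

theorem Ac.summ_mul {a : ℕ → ℂ} {C : ℝ} (h : Ac a C) (u : ℕ → ℂ) (hu : ∀ n, ‖u n‖ ≤ 1) :
    Summable (fun n => ‖u n * a n‖) := by
  refine Summable.of_nonneg_of_le (fun _ => norm_nonneg _) (fun n => ?_) h.summ
  rw [norm_mul]
  exact mul_le_of_le_one_left (norm_nonneg _) (hu n)

/-- `(n b) ^ k = n0 ^ k` modulo `q` has only the solution `n b = n0` with `1 ≤ k ≤ y` and `n ≤ z` -/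
def NSy (q : ℕ) (y z : ℝ) (b n0 : ℕ) : Prop :=
  ∀ k : ℕ, 1 ≤ k → (k : ℝ) ≤ y → ∀ n : ℕ, (n : ℝ) ≤ z →
    n * b ≠ n0 → ((n * b : ℕ) : ZMod q) ^ k ≠ (n0 : ZMod q) ^ k

/-- the series over a coset -/
theorem one_abs {a : ℕ → ℂ} {C : ℝ} (ha : Ac a C) (q : ℕ) [NeZero q] (χ₀ : DirichletCharacter ℂ q)
    (t e d b n0 β : ℕ) (w y z : ℝ) (hed : e ≤ d) (hw : 1 ≤ w) (hz : 1 ≤ z) (hb : 1 ≤ b)
    (hbq : Nat.Coprime b q) (hβ : ((β * n0 : ℕ) : ZMod q) = b) (hNS : NSy q y z b n0)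
    (hy : (e : ℝ) ≤ d / w ∨ (Nat.card (Hg q χ₀ e) : ℝ) ≤ y) :
    (e : ℝ) * ‖∑' n : ℕ, AA q χ₀ t e (β * n) * a n - (if b ∣ n0 then a (n0 / b) else 0)‖ ≤
      C * Z98 * (d * (1 / w + z ^ (-(1 / 8) : ℝ))) := by
  classical
  have hC := ha.pos
  have hZ := Z98_nonneg
  have hzp : (0 : ℝ) < z := by linarith
  have hwp : (0 : ℝ) < w := by linarith
  have hbu : IsUnit (b : ZMod q) := (ZMod.isUnit_iff_coprime b q).2 hbq
  let f : ℕ → ℂ := fun n => AA q χ₀ t e (β * n) * a n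
  have hA1 : ∀ n, ‖AA q χ₀ t e (β * n)‖ ≤ 1 := fun n =>
    (AA_norm q χ₀ t e _).trans ((le_abs_self _).trans (ai_abs _ _ _))
  have hfn : Summable (fun n => ‖f n‖) := ha.summ_mul _ hA1
  let g : ℕ → ℂ := fun n => if n * b = n0 then 0 else f n
  have hga : ∀ n, ‖g n‖ ≤ ‖a n‖ := by
    intro n
    show ‖if n * b = n0 then (0 : ℂ) else AA q χ₀ t e (β * n) * a n‖ ≤ _
    split_ifs
    · rw [norm_zero]; exact norm_nonneg _
    · rw [norm_mul]
      exact mul_le_of_le_one_left (norm_nonneg _) (hA1 n)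
  have hsplit : ∑' n : ℕ, f n = (if b ∣ n0 then a (n0 / b) else 0) + ∑' n, g n := by
    by_cases hd : b ∣ n0
    · rw [if_pos hd]
      obtain ⟨n1, hn1⟩ := hd
      have e1 : n0 / b = n1 := by rw [hn1, Nat.mul_div_cancel_left n1 hb]
      rw [e1, hfn.of_norm.tsum_eq_add_tsum_ite n1]
      congr 1
      · show AA q χ₀ t e (β * n1) * a n1 = _
        rw [AA_cast χ₀ t e, one_mul]
        have h2 : (b : ZMod q) * ((β * n1 : ℕ) : ZMod q) = b * 1 := by
          have h3 : ((β * n0 : ℕ) : ZMod q) = b := hβ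
          rw [hn1] at h3
          push_cast at h3
          push_cast
          rw [mul_one]
          calc (b : ZMod q) * (β * n1) = β * (b * n1) := by ring
            _ = b := h3
        exact hbu.mul_left_cancel h2
      · refine tsum_congr fun n => ?_
        show (if n = n1 then 0 else f n) = if n * b = n0 then 0 else f n
        have : n = n1 ↔ n * b = n0 := by
          rw [hn1, mul_comm b n1]
          exact ⟨fun h => by rw [h], fun h => Nat.eq_of_mul_eq_mul_right hb h⟩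
        simp only [this]
    · rw [if_neg hd, zero_add]
      refine tsum_congr fun n => ?_
      show f n = if n * b = n0 then 0 else f n
      rw [if_neg]
      rintro rfl
      exact hd (Dvd.intro_left n rfl)
  have e0 : ∑' n : ℕ, AA q χ₀ t e (β * n) * a n = ∑' n : ℕ, f n := rfl
  rw [e0, hsplit, add_sub_cancel_left]
  rcases hy with hy | hy
  · have h1 : ‖∑' n, g n‖ ≤ C * Z98 :=
      tsum_of_norm_bounded ((summ98.mul_left C).hasSum_iff.2 (by rw [tsum_mul_left]; rfl))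
        (fun n => (hga n).trans (ha.le' n))
    calc (e : ℝ) * ‖∑' n, g n‖ ≤ (d / w) * (C * Z98) := by gcongr
      _ = C * Z98 * (d * (1 / w)) := by ring
      _ ≤ _ := by
          have : (0 : ℝ) ≤ z ^ (-(1 / 8) : ℝ) := by positivity
          gcongr
          linarith
  · have hg0 : ∀ n : ℕ, (n : ℝ) ≤ z → g n = 0 := by
      intro n hn
      by_contra hg
      have h3 : ¬ n * b = n0 := by
        intro h5
        apply hg
        show (if n * b = n0 then (0 : ℂ) else f n) = 0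
        rw [if_pos h5]
      have h4 : ∃ u ∈ Hg q χ₀ e, ((u : (ZMod q)ˣ) : ZMod q) = ((β * n : ℕ) : ZMod q) := by
        by_contra hcon
        apply hg
        show (if n * b = n0 then (0 : ℂ) else f n) = 0
        rw [if_neg h3]
        show AA q χ₀ t e (β * n) * a n = 0
        have h6 : AA q χ₀ t e (β * n) = 0 := by
          unfold AA ai
          rw [if_neg hcon]
          simp
        rw [h6, zero_mul]
      obtain ⟨u, huH, hu⟩ := h4
      have hc1 : 0 < Nat.card (Hg q χ₀ e) := Nat.card_pos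
      have h5 : u ^ Nat.card (Hg q χ₀ e) = 1 := by
        have h2 : (⟨u, huH⟩ : Hg q χ₀ e) ^ Nat.card (Hg q χ₀ e) = 1 := pow_card_eq_one'
        exact congrArg Subtype.val h2
      have h6 : ((β * n : ℕ) : ZMod q) ^ Nat.card (Hg q χ₀ e) = 1 := by
        rw [← hu, ← Units.val_pow_eq_pow_val, h5, Units.val_one]
      refine hNS _ hc1 hy n hn h3 ?_
      push_cast
      rw [← hβ]
      push_cast
      push_cast at h6
      calc ((n : ZMod q) * (β * n0)) ^ Nat.card (Hg q χ₀ e) =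
            (β * n) ^ Nat.card (Hg q χ₀ e) * (n0 : ZMod q) ^ Nat.card (Hg q χ₀ e) := by ring
        _ = _ := by rw [h6, one_mul]
    have hgb : ∀ n : ℕ, ‖g n‖ ≤ C * z ^ (-(1 / 8) : ℝ) * (n : ℝ) ^ (-(9 / 8) : ℝ) := by
      intro n
      rcases le_or_gt (n : ℝ) z with hn | hn
      · rw [hg0 n hn, norm_zero]; positivity
      · have hn1 : 1 ≤ n := by
          have : (0 : ℝ) < n := by linarith
          exact_mod_cast this
        have hn0 : (0 : ℝ) < n := by linarith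
        refine (hga n).trans ((ha.le n hn1).trans ?_)
        have h1 : (n : ℝ) ^ (-(5 / 4) : ℝ) = (n : ℝ) ^ (-(1 / 8) : ℝ) * (n : ℝ) ^ (-(9 / 8) : ℝ) := by
          rw [← Real.rpow_add hn0]
          norm_num
        have h2 : (n : ℝ) ^ (-(1 / 8) : ℝ) ≤ z ^ (-(1 / 8) : ℝ) :=
          Real.rpow_le_rpow_of_nonpos hzp hn.le (by norm_num)
        rw [h1, mul_assoc]
        gcongr
    have h1 : ‖∑' n, g n‖ ≤ C * z ^ (-(1 / 8) : ℝ) * Z98 :=
      tsum_of_norm_bounded ((summ98.mul_left _).hasSum_iff.2 (by rw [tsum_mul_left]; rfl)) hgb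
    have hed' : (e : ℝ) ≤ d := by exact_mod_cast hed
    calc (e : ℝ) * ‖∑' n, g n‖ ≤ d * (C * z ^ (-(1 / 8) : ℝ) * Z98) := by gcongr
      _ = C * Z98 * (d * z ^ (-(1 / 8) : ℝ)) := by ring
      _ ≤ _ := by
          have : (0 : ℝ) ≤ 1 / w := by positivity
          gcongr
          linarith

/-- the sum over the conjugates -/
theorem main_abs (h2 : G_ORTH) (h3 : M_MOB) {a : ℕ → ℂ} {C : ℝ} (ha : Ac a C) (q : ℕ) [NeZero q]
    (b n0 β : ℕ) (w y z : ℝ) (hw : 1 ≤ w) (hz : 1 ≤ z) (hb : 1 ≤ b)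
    (hbq : Nat.Coprime b q) (hβ : ((β * n0 : ℕ) : ZMod q) = b) (hNS : NSy q y z b n0)
    (χ₀ : DirichletCharacter ℂ q) (M : ℕ) (hM1 : 1 ≤ M) (hMd : M ∣ orderOf χ₀)
    (hy : ∀ r : ℕ, Squarefree r → r * M ∣ orderOf χ₀ →
      ((orderOf χ₀ / (r * M) : ℕ) : ℝ) ≤ orderOf χ₀ / w ∨
        (Nat.card (Hg q χ₀ (orderOf χ₀ / (r * M))) : ℝ) ≤ y) :
    ‖∑ χ ∈ Em q χ₀ M, χ (β : ZMod q) * (∑' n : ℕ, χ (n : ZMod q) * a n) -
        ((Em q χ₀ M).card : ℂ) * (if b ∣ n0 then a (n0 / b) else 0)‖ ≤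
      (orderOf χ₀).divisors.card * (C * Z98 * (orderOf χ₀ * (1 / w + z ^ (-(1 / 8) : ℝ)))) := by
  classical
  have hC := ha.pos
  have hZ := Z98_nonneg
  have hzp : (0 : ℝ) < z := by linarith
  have hwp : (0 : ℝ) < w := by linarith
  obtain ⟨t, hcardM, hmob⟩ := h3 q χ₀ M hM1 hMd
  obtain ⟨zz, hzz⟩ : ∃ zz : ℂ, zz = if b ∣ n0 then a (n0 / b) else 0 := ⟨_, rfl⟩
  rw [← hzz]
  obtain ⟨R, hRdef⟩ : ∃ R : Finset ℕ, R = (orderOf χ₀).divisors.filter
    (fun r => Nat.Coprime r M) := ⟨_, rfl⟩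
  have hRM : ∀ r ∈ R, r * M ∣ orderOf χ₀ := by
    intro r hr
    rw [hRdef, mem_filter, Nat.mem_divisors] at hr
    exact Nat.Coprime.mul_dvd_of_dvd_of_dvd hr.2 hr.1.1 hMd
  have hRd : ∀ r ∈ R, (orderOf χ₀ / (r * M)) ∣ orderOf χ₀ := fun r hr =>
    Nat.div_dvd_of_dvd (hRM r hr)
  have hRcard : R.card ≤ (orderOf χ₀).divisors.card := by
    rw [hRdef]
    exact card_filter_le _ _
  have hEm : ((Em q χ₀ M).card : ℂ) = ∑ r ∈ R, ((ArithmeticFunction.moebius r : ℤ) : ℂ) *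
      ((orderOf χ₀ / (r * M) : ℕ) : ℂ) := by
    have g1 := hmob (fun _ => 1)
    rw [← hRdef] at g1
    simp only [sum_const, nsmul_eq_mul, mul_one] at g1
    rw [g1]
    refine sum_congr rfl fun r hr => ?_
    congr 1
    have g2 := ((h2 q χ₀ _ (hRd r hr)).2 1).1 (one_mem _)
    simpa using g2
  have hone : ∀ (χ : DirichletCharacter ℂ q) (n : ℕ), ‖χ (n : ZMod q)‖ ≤ 1 := fun χ n =>
    DirichletCharacter.norm_le_one χ _
  have hSum : ∑ χ ∈ Em q χ₀ M, χ (β : ZMod q) * (∑' n : ℕ, χ (n : ZMod q) * a n) =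
      ∑ r ∈ R, ((ArithmeticFunction.moebius r : ℤ) : ℂ) *
        (((orderOf χ₀ / (r * M) : ℕ) : ℂ) * ∑' n : ℕ,
          AA q χ₀ (t r) (orderOf χ₀ / (r * M)) (β * n) * a n) := by
    rw [hmob (fun χ => χ (β : ZMod q) * (∑' n : ℕ, χ (n : ZMod q) * a n)), ← hRdef]
    refine sum_congr rfl fun r hr => ?_
    congr 1
    rw [← tsum_mul_left]
    have e1 : ∀ ψ ∈ Cg q χ₀ (orderOf χ₀ / (r * M)), (χ₀ ^ (t r) * ψ) (β : ZMod q) *
        (∑' n : ℕ, (χ₀ ^ (t r) * ψ) (n : ZMod q) * a n) =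
        ∑' n : ℕ, (χ₀ ^ (t r) * ψ) ((β * n : ℕ) : ZMod q) * a n := by
      intro ψ _
      rw [← tsum_mul_left]
      refine tsum_congr fun n => ?_
      rw [Nat.cast_mul, map_mul]
      ring
    rw [sum_congr rfl e1, ← Summable.tsum_finsetSum]
    · refine tsum_congr fun n => ?_
      rw [← sum_mul, sum_cg h2 q χ₀ (t r) _ (hRd r hr) (β * n)]
      ring
    · intro ψ _
      exact (ha.summ_mul _ (fun n => hone _ _)).of_norm
  obtain ⟨E, hE⟩ : ∃ E : ℝ, E = C * Z98 * (orderOf χ₀ * (1 / w + z ^ (-(1 / 8) : ℝ))) := ⟨_, rfl⟩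
  have hE0 : 0 ≤ E := by
    rw [hE]
    positivity
  rw [← hE]
  have hP : ∀ r ∈ R, ‖((ArithmeticFunction.moebius r : ℤ) : ℂ) *
      (((orderOf χ₀ / (r * M) : ℕ) : ℂ) * (∑' n : ℕ,
        AA q χ₀ (t r) (orderOf χ₀ / (r * M)) (β * n) * a n - zz))‖ ≤ E := by
    intro r hr
    by_cases hsq : Squarefree r
    · have hed := hRd r hr
      have hele : (orderOf χ₀ / (r * M)) ≤ orderOf χ₀ := Nat.le_of_dvd (orderOf_pos χ₀) hed
      have b1 := one_abs ha q χ₀ (t r) _ (orderOf χ₀) b n0 β w y z hele hw hz hb hbq hβ hNS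
        (hy r hsq (hRM r hr))
      rw [← hzz, ← hE] at b1
      have g1 : |((ArithmeticFunction.moebius r : ℤ) : ℝ)| ≤ 1 := by
        have := ArithmeticFunction.abs_moebius_le_one (n := r)
        exact_mod_cast this
      rw [norm_mul, norm_mul, Complex.norm_natCast, Complex.norm_intCast]
      calc |((ArithmeticFunction.moebius r : ℤ) : ℝ)| * (((orderOf χ₀ / (r * M) : ℕ) : ℝ) *
            ‖∑' n : ℕ, AA q χ₀ (t r) (orderOf χ₀ / (r * M)) (β * n) * a n - zz‖) ≤ 1 * E := by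
            gcongr
        _ = _ := one_mul _
    · rw [ArithmeticFunction.moebius_eq_zero_of_not_squarefree hsq]
      simpa using hE0
  have hsplit : ∑ r ∈ R, ((ArithmeticFunction.moebius r : ℤ) : ℂ) *
        (((orderOf χ₀ / (r * M) : ℕ) : ℂ) * ∑' n : ℕ,
          AA q χ₀ (t r) (orderOf χ₀ / (r * M)) (β * n) * a n) -
      ((Em q χ₀ M).card : ℂ) * zz =
      ∑ r ∈ R, ((ArithmeticFunction.moebius r : ℤ) : ℂ) *
        (((orderOf χ₀ / (r * M) : ℕ) : ℂ) * (∑' n : ℕ,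
          AA q χ₀ (t r) (orderOf χ₀ / (r * M)) (β * n) * a n - zz)) := by
    rw [hEm, sum_mul, ← sum_sub_distrib]
    refine sum_congr rfl (fun e _ => ?_)
    ring
  rw [hSum, hsplit]
  refine (norm_sum_le _ _).trans ((sum_le_sum hP).trans ?_)
  rw [sum_const, nsmul_eq_mul]
  have : (R.card : ℝ) ≤ ((orderOf χ₀).divisors.card : ℝ) := by exact_mod_cast hRcard
  gcongr

end Pool.Agent.X284.NC
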