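import Pool.Agent.X284.NC.Cond

/-!
# Counting the exceptional characters of prime conductor
-/
set_option autoImplicit false

open Finset

namespace Pool.Agent.X284.NC

open Pool.Agent.W192.CY
open Pool.Agent.X284.LI (small_order)

theorem count_main {V : (q : ℕ) → DirichletCharacter ℂ q → Prop} {G : ℕ → Prop}
    (NN : Finset (ℕ × ℕ))
    (H : ∀ δ : ℝ, 0 < δ → δ ≤ 1 → ∃ q0 : ℝ, ∀ (q : ℕ) [NeZero q], q.Prime → q0 ≤ q → G q →
      ∀ χ : DirichletCharacter ℂ q, χ ≠ 1 → ∀ y : ℝ,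
      (∀ z ∈ NN, NSy q y ((q : ℝ) ^ δ) z.1 z.2) → (q : ℝ) * (q : ℝ) ^ δ ≤ y * orderOf χ →
      ¬ V q χ) {ε : ℝ} (hε : 0 < ε) :
    (∀ θ : ℝ, θ ≤ 1 → ∃ C : ℝ, 0 < C ∧ ∀ X : ℕ, 1 ≤ X →
      (({q : ℕ | q.Prime ∧ q ≤ X ∧ G q ∧ ∃ χ : DirichletCharacter ℂ q, χ ≠ 1 ∧
          (q : ℝ) ^ θ ≤ orderOf χ ∧ V q χ}.ncard : ℕ) : ℝ) ≤ C * (X : ℝ) ^ (2 - 2 * θ + ε)) ∧
    ∃ C : ℝ, 0 < C ∧ ∀ X : ℕ, 1 ≤ X →
      (({y : Σ q : ℕ, DirichletCharacter ℂ q | y.1.Prime ∧ y.1 ≤ X ∧ G y.1 ∧ y.2 ≠ 1 ∧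
        V y.1 y.2}.ncard : ℕ) : ℝ) ≤ C * (X : ℝ) ^ (3 / 2 + ε) := by
  classical
  obtain ⟨δ, hδ⟩ : ∃ δ : ℝ, δ = min (ε / 4) 1 := ⟨_, rfl⟩
  have hδ0 : 0 < δ := by rw [hδ]; positivity
  have hδ1 : δ ≤ 1 := by rw [hδ]; exact min_le_right _ _
  have hδε : 4 * δ ≤ ε := by
    have : δ ≤ ε / 4 := by rw [hδ]; exact min_le_left _ _
    linarith
  obtain ⟨q0, hq0⟩ := H δ hδ0 hδ1
  obtain ⟨Cb, hCb, hbad⟩ := badP_count NN
  obtain ⟨Q, hQ⟩ : ∃ Q : ℕ, Q = ⌈q0⌉₊ := ⟨_, rfl⟩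
  have hQ0 : ∀ q : ℕ, Q < q → q0 ≤ q := by
    intro q hq
    have h1 : q0 ≤ (⌈q0⌉₊ : ℝ) := Nat.le_ceil _
    have h2 : ((⌈q0⌉₊ : ℕ) : ℝ) ≤ q := by
      have : ⌈q0⌉₊ ≤ q := by omega
      exact_mod_cast this
    exact h1.trans h2
  -- the witness
  have hwit : ∀ (X q : ℕ), q.Prime → q ≤ X → G q → Q < q → ∀ χ : DirichletCharacter ℂ q, χ ≠ 1 →
      V q χ → ∃ k : ℕ, 1 ≤ k ∧ (k : ℝ) * orderOf χ ≤ (q : ℝ) * (q : ℝ) ^ δ ∧
        q ∈ BadP NN ((X : ℝ) ^ δ) k X := by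
    intro X q hqp hqX hG hQq χ hχ hV
    have : NeZero q := ⟨hqp.ne_zero⟩
    have hd0 : (0 : ℝ) < orderOf χ := by exact_mod_cast orderOf_pos χ
    have hq00 : (0 : ℝ) < q := by exact_mod_cast hqp.pos
    by_contra hcon
    push Not at hcon
    refine hq0 q hqp (hQ0 q hQq) hG χ hχ ((q : ℝ) * (q : ℝ) ^ δ / orderOf χ) ?_ ?_ hV
    · intro z hz k hk1 hk n hn hne heq
      refine hcon k hk1 ((le_div_iff₀ hd0).1 hk) ⟨hqp, hqX, z, hz, n, ?_, hne, heq⟩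
      refine hn.trans ?_
      have : (q : ℝ) ≤ X := by exact_mod_cast hqX
      exact Real.rpow_le_rpow hq00.le this hδ0.le
    · rw [div_mul_cancel₀ _ hd0.ne']
  constructor
  · intro θ hθ
    refine ⟨Q + 1 + Cb, by positivity, fun X hX => ?_⟩
    have hX1 : (1 : ℝ) ≤ X := by exact_mod_cast hX
    have hX0 : (0 : ℝ) < X := by linarith
    obtain ⟨K, hK⟩ : ∃ K : ℕ, K = ⌊(X : ℝ) ^ (1 - θ + δ)⌋₊ := ⟨_, rfl⟩
    have hKle : (K : ℝ) ≤ (X : ℝ) ^ (1 - θ + δ) := by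
      rw [hK]; exact Nat.floor_le (by positivity)
    have hz1 : (1 : ℝ) ≤ (X : ℝ) ^ δ := Real.one_le_rpow hX1 hδ0.le
    have hsub : {q : ℕ | q.Prime ∧ q ≤ X ∧ G q ∧ ∃ χ : DirichletCharacter ℂ q, χ ≠ 1 ∧
          (q : ℝ) ^ θ ≤ orderOf χ ∧ V q χ} ⊆ ((range (Q + 1) : Finset ℕ) : Set ℕ) ∪
          ⋃ k ∈ Icc 1 K, BadP NN ((X : ℝ) ^ δ) k X := by
      rintro q ⟨hqp, hqX, hG, χ, hχ, hord, hV⟩
      rcases Nat.lt_or_ge Q q with h | h
      · right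
        obtain ⟨k, hk1, hk2, hk3⟩ := hwit X q hqp hqX hG h χ hχ hV
        refine Set.mem_biUnion (x := k) (mem_coe.2 (mem_Icc.2 ⟨hk1, ?_⟩)) hk3
        rw [hK]
        refine Nat.le_floor ?_
        have hq00 : (0 : ℝ) < q := by exact_mod_cast hqp.pos
        have h1 : (k : ℝ) * (q : ℝ) ^ θ ≤ (q : ℝ) * (q : ℝ) ^ δ :=
          (mul_le_mul_of_nonneg_left hord (Nat.cast_nonneg k)).trans hk2
        have h2 : (k : ℝ) ≤ (q : ℝ) ^ (1 - θ + δ) := by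
          have h3 : (q : ℝ) * (q : ℝ) ^ δ = (q : ℝ) ^ (1 - θ + δ) * (q : ℝ) ^ θ := by
            rw [← Real.rpow_add hq00]
            nth_rewrite 1 [← Real.rpow_one (q : ℝ)]
            rw [← Real.rpow_add hq00]
            congr 1
            ring
          rw [h3] at h1
          exact le_of_mul_le_mul_right h1 (by positivity)
        refine h2.trans ?_
        have : (q : ℝ) ≤ X := by exact_mod_cast hqX
        exact Real.rpow_le_rpow hq00.le this (by linarith)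
      · left
        rw [mem_coe, mem_range]
        omega
    have hfinU : (⋃ k ∈ Icc 1 K, BadP NN ((X : ℝ) ^ δ) k X).Finite :=
      Set.Finite.biUnion (Finset.finite_toSet _) fun k hk =>
        (hbad k X _ (mem_Icc.1 (mem_coe.1 hk)).1 hz1).1
    have h1 := (Set.ncard_le_ncard hsub ((Finset.finite_toSet _).union hfinU)).trans
      (Set.ncard_union_le _ _)
    rw [Set.ncard_coe_finset, card_range] at h1
    have h2 : ((⋃ k ∈ Icc 1 K, BadP NN ((X : ℝ) ^ δ) k X).ncard : ℝ) ≤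
        Cb * (X : ℝ) ^ (2 - 2 * θ + ε) := by
      have g1 : (⋃ k ∈ Icc 1 K, BadP NN ((X : ℝ) ^ δ) k X).ncard ≤
        ∑ k ∈ Icc 1 K, (BadP NN ((X : ℝ) ^ δ) k X).ncard := Finset.set_ncard_biUnion_le _ _
      have g2 : (((∑ k ∈ Icc 1 K, (BadP NN ((X : ℝ) ^ δ) k X).ncard : ℕ)) : ℝ) ≤
          ∑ k ∈ Icc 1 K, Cb * (K * ((X : ℝ) ^ δ) ^ 2) := by
        push_cast
        refine sum_le_sum fun k hk => ?_
        obtain ⟨hk1, hk2⟩ := mem_Icc.1 hk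
        refine (hbad k X _ hk1 hz1).2.trans ?_
        have : (k : ℝ) ≤ K := by exact_mod_cast hk2
        gcongr
      have g3 : ((⋃ k ∈ Icc 1 K, BadP NN ((X : ℝ) ^ δ) k X).ncard : ℝ) ≤
          (((∑ k ∈ Icc 1 K, (BadP NN ((X : ℝ) ^ δ) k X).ncard : ℕ)) : ℝ) := by exact_mod_cast g1
      refine (g3.trans g2).trans ?_
      rw [sum_const, Nat.card_Icc, Nat.add_sub_cancel, nsmul_eq_mul]
      calc (K : ℝ) * (Cb * (K * ((X : ℝ) ^ δ) ^ 2)) ≤
            (X : ℝ) ^ (1 - θ + δ) * (Cb * ((X : ℝ) ^ (1 - θ + δ) * ((X : ℝ) ^ δ) ^ 2)) := by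
            gcongr
        _ = Cb * ((X : ℝ) ^ (1 - θ + δ) * (X : ℝ) ^ (1 - θ + δ) * ((X : ℝ) ^ δ * (X : ℝ) ^ δ)) := by
            ring
        _ ≤ _ := by
            rw [← Real.rpow_add hX0, ← Real.rpow_add hX0, ← Real.rpow_add hX0]
            refine mul_le_mul_of_nonneg_left ?_ hCb.le
            exact Real.rpow_le_rpow_of_exponent_le hX1 (by linarith)
    have h3 : (({q : ℕ | q.Prime ∧ q ≤ X ∧ G q ∧ ∃ χ : DirichletCharacter ℂ q, χ ≠ 1 ∧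
          (q : ℝ) ^ θ ≤ orderOf χ ∧ V q χ}.ncard : ℕ) : ℝ) ≤ (Q + 1 : ℝ) +
          ((⋃ k ∈ Icc 1 K, BadP NN ((X : ℝ) ^ δ) k X).ncard : ℝ) := by exact_mod_cast h1
    have h4 : (1 : ℝ) ≤ (X : ℝ) ^ (2 - 2 * θ + ε) := Real.one_le_rpow hX1 (by linarith)
    have h5 : (Q + 1 : ℝ) ≤ (Q + 1 : ℝ) * (X : ℝ) ^ (2 - 2 * θ + ε) :=
      le_mul_of_one_le_right (by positivity) h4
    linarith
  · -- all characters
    obtain ⟨C3, hC3, hdiv, -⟩ := Pool.Agent.W216.CY.t_div δ hδ0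
    obtain ⟨A, hA⟩ : ∃ A : ℕ → ℝ → Set (Σ q : ℕ, DirichletCharacter ℂ q), A = fun q t =>
      {y | y.1 = q ∧ y.1.Prime ∧ (orderOf y.2 : ℝ) < t} := ⟨_, rfl⟩
    have hAcard : ∀ (X q : ℕ) (t : ℝ), q ≤ X → 0 ≤ t → (A q t).Finite ∧
        (((A q t).ncard : ℕ) : ℝ) ≤ C3 * (X : ℝ) ^ δ * t := by
      intro X q t hqX ht
      by_cases hq : q.Prime
      · have : NeZero q := ⟨hq.ne_zero⟩
        obtain ⟨s1, s2⟩ := small_order hq (Y := t) ht
        have h1 : A q t = (fun χ : DirichletCharacter ℂ q =>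
            (⟨q, χ⟩ : Σ q : ℕ, DirichletCharacter ℂ q)) '' {χ | (orderOf χ : ℝ) < t} := by
          rw [hA]
          ext ⟨r, χ⟩
          constructor
          · rintro ⟨h1, h2, h3⟩
            have h4 : r = q := h1
            subst h4
            exact ⟨χ, h3, rfl⟩
          · rintro ⟨χ', h4, h⟩
            rw [← h]
            exact ⟨rfl, hq, h4⟩
        rw [h1]
        refine ⟨s1.image _, ?_⟩
        have h2 : (((fun χ : DirichletCharacter ℂ q =>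
            (⟨q, χ⟩ : Σ q : ℕ, DirichletCharacter ℂ q)) ''
            {χ | (orderOf χ : ℝ) < t}).ncard : ℝ) ≤
            (({χ : DirichletCharacter ℂ q | (orderOf χ : ℝ) < t}.ncard : ℕ) : ℝ) := by
          exact_mod_cast Set.ncard_image_le s1
        refine h2.trans (s2.trans ?_)
        have h3 : ((q - 1).divisors.card : ℝ) ≤ C3 * (X : ℝ) ^ δ := by
          refine (hdiv (q - 1) (by have := hq.two_le; omega)).trans ?_
          have h4 : ((q - 1 : ℕ) : ℝ) ≤ X := by exact_mod_cast (Nat.sub_le q 1).trans hqX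
          have h5 : ((q - 1 : ℕ) : ℝ) ^ δ ≤ (X : ℝ) ^ δ :=
            Real.rpow_le_rpow (by positivity) h4 hδ0.le
          gcongr
        gcongr
      · have h1 : A q t = ∅ := by
          rw [hA]
          ext ⟨r, χ⟩
          constructor
          · rintro ⟨h1, h2, h3⟩
            have h3 : r = q := h1
            subst h3
            exact absurd h2 hq
          · intro h
            exact absurd h (Set.notMem_empty _)
        rw [h1]
        refine ⟨Set.finite_empty, ?_⟩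
        rw [Set.ncard_empty, Nat.cast_zero]
        positivity
    refine ⟨2 * Cb * C3 + 2 * (C3 * (Q + 3)), by positivity, fun X hX => ?_⟩
    have hX1 : (1 : ℝ) ≤ X := by exact_mod_cast hX
    have hX0 : (0 : ℝ) < X := by linarith
    have hz1 : (1 : ℝ) ≤ (X : ℝ) ^ δ := Real.one_le_rpow hX1 hδ0.le
    obtain ⟨K, hK⟩ : ∃ K : ℕ, K = ⌊(X : ℝ) ^ (1 / 2 : ℝ)⌋₊ := ⟨_, rfl⟩
    have hKle : (K : ℝ) ≤ (X : ℝ) ^ (1 / 2 : ℝ) := by
      rw [hK]; exact Nat.floor_le (by positivity)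
    have hfb : ∀ k : ℕ, 1 ≤ k → (BadP NN ((X : ℝ) ^ δ) k X).Finite := fun k hk =>
      (hbad k X _ hk hz1).1
    obtain ⟨E, hE⟩ : ∃ E : ℕ → Finset ℕ, E = fun k => (range (X + 1)).filter
      (fun q => q ∈ BadP NN ((X : ℝ) ^ δ) k X) := ⟨_, rfl⟩
    have hEcard : ∀ k : ℕ, 1 ≤ k → ((E k).card : ℝ) ≤ Cb * (k * ((X : ℝ) ^ δ) ^ 2) := by
      intro k hk
      have h1 : ((E k : Finset ℕ) : Set ℕ) ⊆ BadP NN ((X : ℝ) ^ δ) k X := by
        intro q hq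
        rw [hE, mem_coe, mem_filter] at hq
        exact hq.2
      have h2 := Set.ncard_le_ncard h1 (hfb k hk)
      rw [Set.ncard_coe_finset] at h2
      have h3 : ((E k).card : ℝ) ≤ (((BadP NN ((X : ℝ) ^ δ) k X).ncard : ℕ) : ℝ) := by
        exact_mod_cast h2
      exact h3.trans (hbad k X _ hk hz1).2
    obtain ⟨t₃, ht₃⟩ : ∃ t : ℝ, t = 2 * (X : ℝ) ^ (1 / 2 + δ) + Q + 1 := ⟨_, rfl⟩
    have ht₃0 : 0 ≤ t₃ := by rw [ht₃]; positivity
    obtain ⟨tk, htk⟩ : ∃ t : ℕ → ℝ, t = fun k : ℕ => 2 * ((X : ℝ) * (X : ℝ) ^ δ) / (k : ℝ) :=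
      ⟨_, rfl⟩
    have hsub : {y : Σ q : ℕ, DirichletCharacter ℂ q | y.1.Prime ∧ y.1 ≤ X ∧ G y.1 ∧ y.2 ≠ 1 ∧
        V y.1 y.2} ⊆ (⋃ k ∈ Icc 1 K, ⋃ q ∈ E k, A q (tk k)) ∪ (⋃ q ∈ range (X + 1), A q t₃) := by
      rintro ⟨q, χ⟩ ⟨hqp, hqX, hG, hχ1, hV⟩
      have : NeZero q := ⟨hqp.ne_zero⟩
      have hqp' : q.Prime := hqp
      have hqX' : q ≤ X := hqX
      have hqr : q ∈ range (X + 1) := mem_range.2 (by omega)
      have hd0 : (0 : ℝ) < orderOf χ := by exact_mod_cast orderOf_pos χ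
      have hq00 : (0 : ℝ) < q := by exact_mod_cast hqp'.pos
      have hqXR : (q : ℝ) ≤ X := by exact_mod_cast hqX'
      have hXX : (q : ℝ) * (q : ℝ) ^ δ ≤ (X : ℝ) * (X : ℝ) ^ δ := by gcongr
      have hXp : 0 < (X : ℝ) * (X : ℝ) ^ δ := by positivity
      rcases Nat.lt_or_ge Q q with h | h
      · obtain ⟨k, hk1, hk2, hk3⟩ := hwit X q hqp hqX hG h χ hχ1 hV
        have hkR : (0 : ℝ) < k := by exact_mod_cast hk1
        rcases Nat.lt_or_ge K k with hkK | hkK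
        · right
          refine Set.mem_biUnion (x := q) (mem_coe.2 hqr) ?_
          rw [hA]
          refine ⟨rfl, hqp, ?_⟩
          show (orderOf χ : ℝ) < t₃
          have h1 : (X : ℝ) ^ (1 / 2 : ℝ) < k := by
            rw [hK] at hkK
            exact (Nat.floor_lt (by positivity)).1 hkK
          have h2 : (X : ℝ) * (X : ℝ) ^ δ = (X : ℝ) ^ (1 / 2 : ℝ) * (X : ℝ) ^ (1 / 2 + δ) := by
            rw [← Real.rpow_add hX0]
            nth_rewrite 1 [← Real.rpow_one (X : ℝ)]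
            rw [← Real.rpow_add hX0]
            congr 1
            ring
          have h3 : (X : ℝ) ^ (1 / 2 : ℝ) * orderOf χ ≤
              (X : ℝ) ^ (1 / 2 : ℝ) * (X : ℝ) ^ (1 / 2 + δ) := by
            rw [← h2]
            refine le_trans ?_ (hk2.trans hXX)
            gcongr
          have h4 := le_of_mul_le_mul_left h3 (by positivity)
          have h5 : 0 < (X : ℝ) ^ (1 / 2 + δ) := by positivity
          have h6 : (0 : ℝ) ≤ Q := Nat.cast_nonneg Q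
          rw [ht₃]
          linarith
        · left
          refine Set.mem_biUnion (x := k) (mem_coe.2 (mem_Icc.2 ⟨hk1, hkK⟩)) ?_
          refine Set.mem_biUnion (x := q) ?_ ?_
          · rw [hE, mem_coe, mem_filter]
            exact ⟨hqr, hk3⟩
          · rw [hA, htk]
            refine ⟨rfl, hqp, ?_⟩
            show (orderOf χ : ℝ) < 2 * ((X : ℝ) * (X : ℝ) ^ δ) / k
            rw [lt_div_iff₀ hkR]
            have := hk2.trans hXX
            linarith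
      · right
        refine Set.mem_biUnion (x := q) (mem_coe.2 hqr) ?_
        rw [hA]
        refine ⟨rfl, hqp, ?_⟩
        show (orderOf χ : ℝ) < t₃
        have h1 : orderOf χ ≤ Q := by
          refine le_trans ?_ h
          exact (Nat.le_of_dvd (Nat.totient_pos.2 hqp'.pos)
            (Pool.Agent.W193.CY.order_le q χ)).trans (Nat.totient_le q)
        have h2 : (orderOf χ : ℝ) ≤ Q := by exact_mod_cast h1
        have h5 : 0 < (X : ℝ) ^ (1 / 2 + δ) := by positivity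
        rw [ht₃]
        linarith
    have htk0 : ∀ k, 0 ≤ tk k := by
      intro k
      rw [htk]
      positivity
    have hqE : ∀ k, ∀ q ∈ E k, q ≤ X := by
      intro k q hq
      rw [hE, mem_filter, mem_range] at hq
      omega
    have hqR : ∀ q ∈ range (X + 1), q ≤ X := by
      intro q hq
      rw [mem_range] at hq
      omega
    have hfU1 : (⋃ k ∈ Icc 1 K, ⋃ q ∈ E k, A q (tk k)).Finite :=
      Set.Finite.biUnion (Finset.finite_toSet _) fun k _ =>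
        Set.Finite.biUnion (Finset.finite_toSet _) fun q hq =>
          (hAcard X q (tk k) (hqE k q (mem_coe.1 hq)) (htk0 k)).1
    have hfU2 : (⋃ q ∈ range (X + 1), A q t₃).Finite :=
      Set.Finite.biUnion (Finset.finite_toSet _) fun q hq =>
        (hAcard X q t₃ (hqR q (mem_coe.1 hq)) ht₃0).1
    have h1 := (Set.ncard_le_ncard hsub (hfU1.union hfU2)).trans (Set.ncard_union_le _ _)
    have h2 : ((⋃ k ∈ Icc 1 K, ⋃ q ∈ E k, A q (tk k)).ncard : ℝ) ≤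
        2 * Cb * C3 * (X : ℝ) ^ (3 / 2 + ε) := by
      have g1 : (⋃ k ∈ Icc 1 K, ⋃ q ∈ E k, A q (tk k)).ncard ≤
          ∑ k ∈ Icc 1 K, (⋃ q ∈ E k, A q (tk k)).ncard := Finset.set_ncard_biUnion_le _ _
      have g2 : ∀ k ∈ Icc 1 K, ((⋃ q ∈ E k, A q (tk k)).ncard : ℝ) ≤
          2 * Cb * C3 * ((X : ℝ) * ((X : ℝ) ^ δ) ^ 4) := by
        intro k hk
        obtain ⟨hk1, hk2⟩ := mem_Icc.1 hk
        have hkR : (0 : ℝ) < k := by exact_mod_cast hk1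
        have g3 : (⋃ q ∈ E k, A q (tk k)).ncard ≤ ∑ q ∈ E k, (A q (tk k)).ncard :=
          Finset.set_ncard_biUnion_le _ _
        have g4 : ((⋃ q ∈ E k, A q (tk k)).ncard : ℝ) ≤ ∑ q ∈ E k, ((A q (tk k)).ncard : ℝ) := by
          exact_mod_cast g3
        have g5 : ∑ q ∈ E k, ((A q (tk k)).ncard : ℝ) ≤ (E k).card • (C3 * (X : ℝ) ^ δ * tk k) :=
          sum_le_card_nsmul _ _ _ fun q hq => (hAcard X q (tk k) (hqE k q hq) (htk0 k)).2
        refine (g4.trans g5).trans ?_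
        rw [nsmul_eq_mul]
        have g6 := hEcard k hk1
        have g7 : 0 ≤ C3 * (X : ℝ) ^ δ * tk k := by
          have := htk0 k
          positivity
        calc ((E k).card : ℝ) * (C3 * (X : ℝ) ^ δ * tk k) ≤
              (Cb * (k * ((X : ℝ) ^ δ) ^ 2)) * (C3 * (X : ℝ) ^ δ * tk k) :=
              mul_le_mul_of_nonneg_right g6 g7
          _ = 2 * Cb * C3 * ((X : ℝ) * ((X : ℝ) ^ δ) ^ 4) := by
              rw [htk]
              field_simp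
      have g3 : (((∑ k ∈ Icc 1 K, (⋃ q ∈ E k, A q (tk k)).ncard : ℕ)) : ℝ) ≤
          K * (2 * Cb * C3 * ((X : ℝ) * ((X : ℝ) ^ δ) ^ 4)) := by
        push_cast
        refine (sum_le_card_nsmul _ _ _ g2).trans (le_of_eq ?_)
        rw [Nat.card_Icc, Nat.add_sub_cancel, nsmul_eq_mul]
      have g4 : ((⋃ k ∈ Icc 1 K, ⋃ q ∈ E k, A q (tk k)).ncard : ℝ) ≤
          (((∑ k ∈ Icc 1 K, (⋃ q ∈ E k, A q (tk k)).ncard : ℕ)) : ℝ) := by exact_mod_cast g1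
      refine (g4.trans g3).trans ?_
      have g5 : (X : ℝ) ^ (1 / 2 : ℝ) * ((X : ℝ) * ((X : ℝ) ^ δ) ^ 4) ≤ (X : ℝ) ^ (3 / 2 + ε) := by
        rw [← Real.rpow_natCast ((X : ℝ) ^ δ) 4, ← Real.rpow_mul hX0.le]
        nth_rewrite 2 [← Real.rpow_one (X : ℝ)]
        rw [← Real.rpow_add hX0, ← Real.rpow_add hX0]
        refine Real.rpow_le_rpow_of_exponent_le hX1 ?_
        push_cast
        linarith
      calc (K : ℝ) * (2 * Cb * C3 * ((X : ℝ) * ((X : ℝ) ^ δ) ^ 4)) ≤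
            (X : ℝ) ^ (1 / 2 : ℝ) * (2 * Cb * C3 * ((X : ℝ) * ((X : ℝ) ^ δ) ^ 4)) := by gcongr
        _ = 2 * Cb * C3 * ((X : ℝ) ^ (1 / 2 : ℝ) * ((X : ℝ) * ((X : ℝ) ^ δ) ^ 4)) := by ring
        _ ≤ _ := mul_le_mul_of_nonneg_left g5 (by positivity)
    have h3 : ((⋃ q ∈ range (X + 1), A q t₃).ncard : ℝ) ≤
        2 * (C3 * (Q + 3)) * (X : ℝ) ^ (3 / 2 + ε) := by
      have g3 : (⋃ q ∈ range (X + 1), A q t₃).ncard ≤ ∑ q ∈ range (X + 1), (A q t₃).ncard :=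
        Finset.set_ncard_biUnion_le _ _
      have g4 : ((⋃ q ∈ range (X + 1), A q t₃).ncard : ℝ) ≤
          ∑ q ∈ range (X + 1), ((A q t₃).ncard : ℝ) := by exact_mod_cast g3
      have g5 : ∑ q ∈ range (X + 1), ((A q t₃).ncard : ℝ) ≤
          (range (X + 1)).card • (C3 * (X : ℝ) ^ δ * t₃) :=
        sum_le_card_nsmul _ _ _ fun q hq => (hAcard X q t₃ (hqR q hq) ht₃0).2
      refine (g4.trans g5).trans ?_
      rw [nsmul_eq_mul, card_range]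
      have g6 : (1 : ℝ) ≤ (X : ℝ) ^ (1 / 2 + δ) := Real.one_le_rpow hX1 (by positivity)
      have g7 : t₃ ≤ (Q + 3) * (X : ℝ) ^ (1 / 2 + δ) := by
        have g8 : (Q + 1 : ℝ) ≤ (Q + 1 : ℝ) * (X : ℝ) ^ (1 / 2 + δ) :=
          le_mul_of_one_le_right (by positivity) g6
        rw [ht₃]
        linarith
      have g8 : ((X + 1 : ℕ) : ℝ) ≤ 2 * X := by push_cast; linarith
      have g9 : (X : ℝ) * ((X : ℝ) ^ δ * (X : ℝ) ^ (1 / 2 + δ)) ≤ (X : ℝ) ^ (3 / 2 + ε) := by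
        nth_rewrite 1 [← Real.rpow_one (X : ℝ)]
        rw [← Real.rpow_add hX0, ← Real.rpow_add hX0]
        exact Real.rpow_le_rpow_of_exponent_le hX1 (by linarith)
      calc ((X + 1 : ℕ) : ℝ) * (C3 * (X : ℝ) ^ δ * t₃) ≤
            (2 * X) * (C3 * (X : ℝ) ^ δ * ((Q + 3) * (X : ℝ) ^ (1 / 2 + δ))) := by gcongr
        _ = 2 * (C3 * (Q + 3)) * ((X : ℝ) * ((X : ℝ) ^ δ * (X : ℝ) ^ (1 / 2 + δ))) := by ring
        _ ≤ _ := mul_le_mul_of_nonneg_left g9 (by positivity)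
    have h4 : (({y : Σ q : ℕ, DirichletCharacter ℂ q | y.1.Prime ∧ y.1 ≤ X ∧ G y.1 ∧ y.2 ≠ 1 ∧
        V y.1 y.2}.ncard : ℕ) : ℝ) ≤ ((⋃ k ∈ Icc 1 K, ⋃ q ∈ E k, A q (tk k)).ncard : ℝ) +
        ((⋃ q ∈ range (X + 1), A q t₃).ncard : ℝ) := by exact_mod_cast h1
    refine h4.trans ((add_le_add h2 h3).trans (le_of_eq ?_))
    ring

end Pool.Agent.X284.NC
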