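import Pool.Agent.X284.NC.Fin
import Pool.Agent.X284.LI.PCnt

/-!
# The conditions on the conductor and on the order
-/
set_option autoImplicit false

open Finset

namespace Pool.Agent.X284.NC

open Pool.Agent.W192.CY
open Pool.Agent.X284.LI (Dd Dd_ne Dd_le card_pf small_order sqf_le)
open Pool.Agent.X284.KS

/-- large order -/
theorem oc_large {q : ℕ} [NeZero q] {χ : DirichletCharacter ℂ q} {M₀ : ℕ} {δ y : ℝ}
    (hy : (q : ℝ) * (q : ℝ) ^ δ ≤ y * orderOf χ) : OC q χ M₀ δ y := by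
  intro r _ M hM _ hrM
  have horth := Pool.Agent.W230.CY.t_orth
  have hq : 0 < q := Nat.pos_of_ne_zero (NeZero.ne q)
  have hqR : (0 : ℝ) < q := by exact_mod_cast hq
  have hz : 0 < (q : ℝ) ^ δ := by positivity
  have hd0 : 0 < orderOf χ := orderOf_pos χ
  have hdR : (0 : ℝ) < orderOf χ := by exact_mod_cast hd0
  obtain ⟨e, he⟩ : ∃ e : ℕ, e = orderOf χ / (r * M) := ⟨_, rfl⟩
  have h2 : e * (r * M) = orderOf χ := by rw [he]; exact Nat.div_mul_cancel hrM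
  have h2R : (e : ℝ) * (r * M : ℕ) = orderOf χ := by exact_mod_cast h2
  have hed : e ∣ orderOf χ := Dvd.intro _ h2
  have he0 : 0 < e := Nat.pos_of_dvd_of_pos hed hd0
  have heR : (0 : ℝ) < e := by exact_mod_cast he0
  rw [← he]
  rcases le_or_gt ((q : ℝ) ^ δ) ((r * M : ℕ) : ℝ) with h | h
  · left
    rw [le_div_iff₀ hz, ← h2R]
    gcongr
  · right
    have h1 := (horth q χ e hed).1
    have h3 : (e : ℝ) * Nat.card (Hg q χ e) ≤ q := by
      exact_mod_cast h1.le.trans (Nat.totient_le q)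
    have h4 : (orderOf χ : ℝ) * Nat.card (Hg q χ e) ≤ (q : ℝ) * (q : ℝ) ^ δ := by
      rw [← h2R]
      calc (e : ℝ) * (r * M : ℕ) * Nat.card (Hg q χ e) =
            (e * Nat.card (Hg q χ e)) * (r * M : ℕ) := by ring
        _ ≤ q * (q : ℝ) ^ δ := by gcongr
    have h5 : (orderOf χ : ℝ) * Nat.card (Hg q χ e) ≤ orderOf χ * y := by
      rw [mul_comm _ y]
      exact h4.trans hy
    exact le_of_mul_le_mul_left h5 hdR

/-- smooth conductor -/
theorem oc_smooth {S : Finset ℕ} (hS : ∀ p ∈ S, p.Prime) {M₀ : ℕ} :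
    ∃ h : ℕ, 1 ≤ h ∧ ∀ (q : ℕ) [NeZero q], (∀ p : ℕ, p.Prime → p ∣ q → p ∈ S) →
      ∀ χ : DirichletCharacter ℂ q, χ.IsPrimitive → ∀ δ : ℝ, OC q χ M₀ δ h := by
  obtain ⟨r₁, hr₁⟩ : ∃ r : ℕ, r = ∏ p ∈ S, p := ⟨_, rfl⟩
  obtain ⟨r₀, hr₀⟩ : ∃ r : ℕ, r = ∏ p ∈ S, p * (p - 1) := ⟨_, rfl⟩
  refine ⟨2 * r₁ * (r₀ * M₀) + 1, by omega, fun q _ hq χ hχ δ => ?_⟩
  intro r hr M hM1 hM hrM
  right
  have horth := Pool.Agent.W230.CY.t_orth
  have hqp : 0 < q := Nat.pos_of_ne_zero (NeZero.ne q)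
  have hd0 : 0 < orderOf χ := orderOf_pos χ
  obtain ⟨e, he⟩ : ∃ e : ℕ, e = orderOf χ / (r * M) := ⟨_, rfl⟩
  have h2 : e * (r * M) = orderOf χ := by rw [he]; exact Nat.div_mul_cancel hrM
  have hed : e ∣ orderOf χ := Dvd.intro _ h2
  rw [← he]
  have h1 := (horth q χ e hed).1
  have h3 : e * Nat.card (Hg q χ e) ≤ q := h1.le.trans (Nat.totient_le q)
  have h4 : q ≤ 2 * r₁ * orderOf χ := by
    have h5 : q ∣ 2 * r₁ * orderOf χ := Tow.dvd_order hχ fun p hp hpq => by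
      rw [hr₁]
      exact Finset.dvd_prod_of_mem (fun p => p) (hq p hp hpq)
    refine Nat.le_of_dvd (Nat.pos_of_ne_zero fun h0 => ?_) h5
    rw [h0] at h5
    have hr1p : 0 < r₁ := by rw [hr₁]; exact Finset.prod_pos fun p hp => (hS p hp).pos
    have : 0 < 2 * r₁ * orderOf χ := by positivity
    omega
  have hr0 : r ≤ r₀ := by
    rw [hr₀]
    exact sqf_le hS hq χ hr ((Dvd.intro _ rfl).trans hrM)
  have hc : Nat.card (Hg q χ e) ≤ 2 * r₁ * (r₀ * M₀) + 1 := by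
    have h6 : orderOf χ * Nat.card (Hg q χ e) ≤ orderOf χ * (2 * r₁ * (r₀ * M₀)) := by
      calc orderOf χ * Nat.card (Hg q χ e) = (e * Nat.card (Hg q χ e)) * (r * M) := by
            rw [← h2]; ring
        _ ≤ (2 * r₁ * orderOf χ) * (r₀ * M₀) :=
            Nat.mul_le_mul (h3.trans h4) (Nat.mul_le_mul hr0 hM)
        _ = _ := by ring
    have := Nat.le_of_mul_le_mul_left h6 hd0
    omega
  exact_mod_cast hc

/-- small subgroups and a small power of the conductor -/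
theorem nsy_small {h : ℕ} (hh : 1 ≤ h) {δ : ℝ} (hδ : 0 ≤ δ) (hδh : δ * h ≤ 1 / 2) (b n0 : ℕ) :
    ∃ q0 : ℝ, ∀ q : ℕ, q0 ≤ q → NSy q h ((q : ℝ) ^ δ) b n0 := by
  refine ⟨((b : ℝ) ^ h + 1) ^ 2 + (n0 : ℝ) ^ h + 1, fun q hq k hk1 hk n hn hne heq => ?_⟩
  have hkh : k ≤ h := by exact_mod_cast hk
  have hb0 : (0 : ℝ) ≤ (b : ℝ) ^ h := by positivity
  have hn00 : (0 : ℝ) ≤ (n0 : ℝ) ^ h := by positivity
  have hq1 : (1 : ℝ) ≤ q := by nlinarith
  have hq0 : (0 : ℝ) < q := by linarith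
  have hsq : (b : ℝ) ^ h + 1 ≤ Real.sqrt q := by
    apply Real.le_sqrt_of_sq_le
    linarith
  have h1 : ((n * b : ℕ) : ℝ) ^ k < q := by
    rcases Nat.eq_zero_or_pos (n * b) with h0 | h0
    · rw [h0, Nat.cast_zero, zero_pow (by omega)]
      exact hq0
    · have h1 : (1 : ℝ) ≤ ((n * b : ℕ) : ℝ) := by exact_mod_cast h0
      calc ((n * b : ℕ) : ℝ) ^ k ≤ ((n * b : ℕ) : ℝ) ^ h := pow_le_pow_right₀ h1 hkh
        _ = (n : ℝ) ^ h * (b : ℝ) ^ h := by push_cast; rw [mul_pow]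
        _ ≤ ((q : ℝ) ^ δ) ^ h * (b : ℝ) ^ h := by gcongr
        _ = (q : ℝ) ^ (δ * h) * (b : ℝ) ^ h := by rw [← Real.rpow_natCast, ← Real.rpow_mul hq0.le]
        _ ≤ Real.sqrt q * (b : ℝ) ^ h := by
            have : (q : ℝ) ^ (δ * h) ≤ Real.sqrt q := by
              rw [Real.sqrt_eq_rpow]
              exact Real.rpow_le_rpow_of_exponent_le hq1 hδh
            gcongr
        _ < Real.sqrt q * Real.sqrt q := by
            have : 0 < Real.sqrt q := by positivity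
            apply mul_lt_mul_of_pos_left _ this
            linarith
        _ = q := Real.mul_self_sqrt hq0.le
  have h2 : ((n0 : ℕ) : ℝ) ^ k < q := by
    rcases Nat.eq_zero_or_pos n0 with h0 | h0
    · rw [h0, Nat.cast_zero, zero_pow (by omega)]
      exact hq0
    · have h1 : (1 : ℝ) ≤ (n0 : ℝ) := by exact_mod_cast h0
      calc (n0 : ℝ) ^ k ≤ (n0 : ℝ) ^ h := pow_le_pow_right₀ h1 hkh
        _ < q := by nlinarith
  have h1' : (n * b) ^ k < q := by exact_mod_cast h1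
  have h2' : n0 ^ k < q := by exact_mod_cast h2
  have h3 : (((n * b) ^ k : ℕ) : ZMod q) = ((n0 ^ k : ℕ) : ZMod q) := by
    push_cast
    push_cast at heq
    exact heq
  rw [ZMod.natCast_eq_natCast_iff'] at h3
  rw [Nat.mod_eq_of_lt h1', Nat.mod_eq_of_lt h2'] at h3
  exact hne (Nat.pow_left_injective (by omega : k ≠ 0) h3)

theorem NSy.mono {q : ℕ} {y y' z : ℝ} {b n0 : ℕ} (h : NSy q y z b n0) (hy : y' ≤ y) :
    NSy q y' z b n0 := fun k hk1 hk => h k hk1 (hk.trans hy)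

/-- the primes at most `X` dividing `(n b) ^ k - n0 ^ k` for some `n ≤ z` -/
def BadP (NN : Finset (ℕ × ℕ)) (z : ℝ) (k X : ℕ) : Set ℕ :=
  {q | q.Prime ∧ q ≤ X ∧ ∃ w ∈ NN, ∃ n : ℕ, (n : ℝ) ≤ z ∧ n * w.1 ≠ w.2 ∧
    ((n * w.1 : ℕ) : ZMod q) ^ k = (w.2 : ZMod q) ^ k}

theorem badP_count (NN : Finset (ℕ × ℕ)) :
    ∃ C : ℝ, 0 < C ∧ ∀ (k X : ℕ) (z : ℝ), 1 ≤ k → 1 ≤ z →
      (BadP NN z k X).Finite ∧ (((BadP NN z k X).ncard : ℕ) : ℝ) ≤ C * (k * z ^ 2) := by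
  classical
  obtain ⟨s, hs⟩ : ∃ s : ℕ, s = ∑ w ∈ NN, (w.1 + w.2) := ⟨_, rfl⟩
  refine ⟨4 * (NN.card + 1) * (s + 1), by positivity, fun k X z hk hz => ?_⟩
  obtain ⟨Nx, hNx⟩ : ∃ Nx : ℕ, Nx = ⌊z⌋₊ := ⟨_, rfl⟩
  have hNle : (Nx : ℝ) ≤ z := by rw [hNx]; exact Nat.floor_le (by positivity)
  have hsub : BadP NN z k X ⊆
      (((range (Nx + 1) ×ˢ NN).biUnion
        (fun y : ℕ × (ℕ × ℕ) => if y.1 * y.2.1 = y.2.2 then ∅ else
          (Dd y.2.2 k y.1 y.2.1).primeFactors) : Finset ℕ) : Set ℕ) := by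
    rintro q ⟨hq, hqX, w, hw, n, hn, hne, heq⟩
    rw [mem_coe, mem_biUnion]
    refine ⟨(n, w), ?_, ?_⟩
    · rw [mem_product, mem_range]
      refine ⟨?_, hw⟩
      refine Nat.lt_succ_of_le ?_
      rw [hNx]
      exact Nat.le_floor hn
    · show q ∈ (if n * w.1 = w.2 then (∅ : Finset ℕ) else (Dd w.2 k n w.1).primeFactors)
      rw [if_neg hne]
      refine Nat.mem_primeFactors.2 ⟨hq, ?_, Dd_ne hk hne⟩
      unfold Dd
      rw [← Int.natCast_dvd, ← ZMod.intCast_zmod_eq_zero_iff_dvd]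
      push_cast
      push_cast at heq
      rw [heq, sub_self]
  refine ⟨(Finset.finite_toSet _).subset hsub, ?_⟩
  have h1 := Set.ncard_le_ncard hsub (Finset.finite_toSet _)
  rw [Set.ncard_coe_finset] at h1
  have h2 := h1.trans card_biUnion_le
  have h3 : ∀ y ∈ range (Nx + 1) ×ˢ NN,
      (if y.1 * y.2.1 = y.2.2 then (∅ : Finset ℕ) else
          (Dd y.2.2 k y.1 y.2.1).primeFactors).card ≤ k * (Nx * s + s) := by
    rintro ⟨n, w⟩ hy
    rw [mem_product, mem_range] at hy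
    obtain ⟨hn, hw⟩ := hy
    show (if n * w.1 = w.2 then (∅ : Finset ℕ) else (Dd w.2 k n w.1).primeFactors).card ≤ _
    split_ifs with h
    · simp
    · refine (card_pf (Dd_ne hk h) (Dd_le w.2 k n w.1)).trans ?_
      have hb2 : w.1 + w.2 ≤ s := by
        rw [hs]
        exact single_le_sum (f := fun w : ℕ × ℕ => w.1 + w.2) (fun _ _ => Nat.zero_le _) hw
      have hn2 : n ≤ Nx := Nat.lt_succ_iff.1 hn
      have h5 : w.1 ≤ s := by omega
      have h6 : w.2 ≤ s := by omega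
      gcongr
  have h4 := h2.trans (sum_le_card_nsmul _ _ _ h3)
  rw [card_product, card_range, smul_eq_mul] at h4
  have h5 : (((BadP NN z k X).ncard : ℕ) : ℝ) ≤
      ((Nx + 1) * NN.card) * (k * (Nx * s + s)) := by exact_mod_cast h4
  refine h5.trans ?_
  have h6 : ((Nx : ℝ) + 1) ≤ 2 * z := by linarith
  have h7 : (Nx : ℝ) * s + s ≤ (s + 1) * (2 * z) := by
    have hs0 : (0 : ℝ) ≤ s := by positivity
    nlinarith
  have h8 : (NN.card : ℝ) ≤ NN.card + 1 := by linarith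
  calc ((Nx : ℝ) + 1) * NN.card * (k * (Nx * s + s)) ≤
      (2 * z * (NN.card + 1)) * (k * ((s + 1) * (2 * z))) := by
        gcongr
    _ = _ := by ring

end Pool.Agent.X284.NC
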