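import Pool.Agent.X284.NC.Abs

/-!
# Linear combinations of absolutely convergent series: the lower bound
-/
set_option autoImplicit false

namespace Pool.Agent.X284.NC

open Finset
open Pool.Agent.W192.CY
open Pool.Agent.W193.CY (ev_small order_le)
open Pool.Agent.W460.CYM (Em_spec)

theorem core_abs {J : Type} [Fintype J] {a : J → ℕ → ℂ} {C : J → ℝ} (ha : ∀ j, Ac (a j) (C j))
    (B : Finset ℕ) (hB : ∀ b ∈ B, 1 ≤ b) (p : J → ℕ → ℂ) {n0 : ℕ}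
    (hD : ∑ j, ∑ b ∈ B, p j b * (if b ∣ n0 then a j (n0 / b) else 0) ≠ 0)
    {M₀ : ℕ} (hM₀ : 1 ≤ M₀) {δ : ℝ} (hδ : 0 < δ) (hδ1 : δ ≤ 1) :
    ∃ q0 : ℝ, ∀ (q : ℕ) [NeZero q], q0 ≤ q → (∀ b ∈ B, Nat.Coprime b q) → Nat.Coprime n0 q →
      ∀ χ₀ : DirichletCharacter ℂ q, χ₀.IsPrimitive → ∀ y : ℝ,
      (∀ b ∈ B, NSy q y ((q : ℝ) ^ δ) b n0) →
      (∀ r : ℕ, Squarefree r → ∀ M : ℕ, 1 ≤ M → M ≤ M₀ → r * M ∣ orderOf χ₀ →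
        ((orderOf χ₀ / (r * M) : ℕ) : ℝ) ≤ orderOf χ₀ / (q : ℝ) ^ δ ∨
        (Nat.card (Hg q χ₀ (orderOf χ₀ / (r * M))) : ℝ) ≤ y) →
      ∃ k : ℕ, Nat.Coprime k (orderOf χ₀) ∧ k % M₀ = 1 % M₀ ∧ (χ₀ ^ k).IsPrimitive ∧
        ‖∑ j, ∑ b ∈ B, p j b * (if b ∣ n0 then a j (n0 / b) else 0)‖ / 2 ≤
        ‖∑ j, ∑ b ∈ B, p j b * (χ₀ ^ k) (b : ZMod q) *
          (∑' n : ℕ, (χ₀ ^ k) (n : ZMod q) * a j n)‖ := by
  classical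
  have hdiv := Pool.Agent.W216.CY.t_div
  have horth := Pool.Agent.W230.CY.t_orth
  have hmob := Pool.Agent.W155.CY.m_mob
  obtain ⟨D0, hD0⟩ : ∃ D0 : ℂ, D0 = ∑ j, ∑ b ∈ B,
    p j b * (if b ∣ n0 then a j (n0 / b) else 0) := ⟨_, rfl⟩
  rw [← hD0] at hD ⊢
  have hDpos : 0 < ‖D0‖ := norm_pos_iff.2 hD
  obtain ⟨ρ, hρ⟩ : ∃ ρ : ℝ, ρ = δ / 32 := ⟨_, rfl⟩
  have hρ0 : 0 < ρ := by rw [hρ]; positivity
  obtain ⟨C2, hC2, hτ2, -⟩ := hdiv ρ hρ0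
  obtain ⟨C4, hC4, -, H4⟩ := hdiv ρ hρ0
  have hZ := Z98_nonneg
  obtain ⟨Ct, hCt⟩ : ∃ Ct : ℝ, Ct = ∑ j, ∑ b ∈ B, ‖p j b‖ * (C j * Z98) := ⟨_, rfl⟩
  have hCt0 : 0 ≤ Ct := by
    rw [hCt]
    refine sum_nonneg fun j _ => sum_nonneg fun b _ => ?_
    have := (ha j).pos
    positivity
  obtain ⟨q3, H5⟩ := ev_small (2 * (Ct * C2 * C4 * M₀ * 2) / ‖D0‖) 0 ρ 1 hρ0 one_pos
  refine ⟨max q3 2, fun q _ hq0' hBq hn0q χ₀ hχ₀ y hNS hy => ?_⟩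
  have hqc : q3 ≤ q := (le_max_left _ _).trans hq0'
  have hq2 : (2 : ℝ) ≤ q := le_trans (le_max_right _ _) hq0'
  have hq2' : 2 ≤ q := by exact_mod_cast hq2
  have hqpos : (0 : ℝ) < q := by linarith
  have hq1 : (1 : ℝ) ≤ q := by linarith
  obtain ⟨d, hddef⟩ : ∃ d : ℕ, d = orderOf χ₀ := ⟨_, rfl⟩
  have hdpos' : 0 < d := by rw [hddef]; exact orderOf_pos χ₀
  have hdpos : (0 : ℝ) < d := by exact_mod_cast hdpos'
  have hdq : (d : ℝ) ≤ q := by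
    rw [hddef]
    exact_mod_cast le_trans (Nat.le_of_dvd (Nat.totient_pos.2 (by omega)) (order_le q χ₀))
      (Nat.totient_le q)
  by_contra hcon
  push Not at hcon
  obtain ⟨M₁, hM₁⟩ : ∃ M₁ : ℕ, M₁ = Nat.gcd M₀ (orderOf χ₀) := ⟨_, rfl⟩
  have hM₁1 : 1 ≤ M₁ := by rw [hM₁]; exact Nat.gcd_pos_of_pos_left _ (by omega)
  have hM₁d : M₁ ∣ orderOf χ₀ := by rw [hM₁]; exact Nat.gcd_dvd_right _ _
  have hM₁0 : M₁ ≤ M₀ := by rw [hM₁]; exact Nat.gcd_le_left _ (by omega)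
  have hLs : ∀ χ ∈ Em q χ₀ M₁, ‖∑ j, ∑ b ∈ B, p j b * χ (b : ZMod q) *
      (∑' n : ℕ, χ (n : ZMod q) * a j n)‖ ≤ ‖D0‖ / 2 := by
    intro χ hχ
    rw [hM₁] at hχ
    obtain ⟨hp, k, hk, hk', hχa⟩ := Em_spec q χ₀ χ M₀ hχ₀ hχ
    have := hcon k hk hk' (by rw [← hχa]; exact hp)
    rw [← hχa] at this
    exact this.le
  -- the inverse of `n0`
  obtain ⟨u, hu⟩ := (ZMod.isUnit_iff_coprime n0 q).2 hn0q
  obtain ⟨ns, hns⟩ : ∃ ns : ℕ, ns = (((u⁻¹ : (ZMod q)ˣ) : ZMod q)).val := ⟨_, rfl⟩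
  have hns2 : (ns : ZMod q) * (n0 : ZMod q) = 1 := by
    rw [hns, ZMod.natCast_zmod_val, ← hu, Units.inv_mul]
  have hβ : ∀ b : ℕ, (((b * ns) * n0 : ℕ) : ZMod q) = b := by
    intro b
    push_cast
    rw [mul_assoc, hns2, mul_one]
  obtain ⟨K, hK⟩ : ∃ K : ℕ, K = (Em q χ₀ M₁).card := ⟨_, rfl⟩
  obtain ⟨z, hz⟩ : ∃ z : J → ℕ → ℂ, z = fun j b =>
    if b ∣ n0 then a j (n0 / b) else 0 := ⟨_, rfl⟩
  obtain ⟨TT, hTT⟩ : ∃ TT : J → ℕ → ℂ, TT = fun j b => ∑ χ ∈ Em q χ₀ M₁,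
    χ ((b * ns : ℕ) : ZMod q) * (∑' n : ℕ, χ (n : ZMod q) * a j n) := ⟨_, rfl⟩
  have hqδ : (1 : ℝ) ≤ (q : ℝ) ^ δ := Real.one_le_rpow hq1 hδ.le
  obtain ⟨E, hE⟩ : ∃ E : ℝ, E = 1 / (q : ℝ) ^ δ + ((q : ℝ) ^ δ) ^ (-(1 / 8) : ℝ) := ⟨_, rfl⟩
  have hE1 : E ≤ 2 * (q : ℝ) ^ (-(4 * ρ)) := by
    have e1 : 1 / (q : ℝ) ^ δ ≤ (q : ℝ) ^ (-(4 * ρ)) := by
      rw [one_div, ← Real.rpow_neg hqpos.le]
      exact Real.rpow_le_rpow_of_exponent_le hq1 (by rw [hρ]; linarith)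
    have e2 : ((q : ℝ) ^ δ) ^ (-(1 / 8) : ℝ) ≤ (q : ℝ) ^ (-(4 * ρ)) := by
      rw [← Real.rpow_mul hqpos.le]
      exact Real.rpow_le_rpow_of_exponent_le hq1 (by rw [hρ]; linarith)
    rw [hE]
    linarith
  have hE0 : 0 ≤ E := by rw [hE]; positivity
  have hup0 : ∑ χ ∈ Em q χ₀ M₁, χ (ns : ZMod q) *
        ∑ j, ∑ b ∈ B, p j b * χ (b : ZMod q) * (∑' n : ℕ, χ (n : ZMod q) * a j n) =
      ∑ j, ∑ b ∈ B, p j b * TT j b := by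
    have e2 : ∀ χ ∈ Em q χ₀ M₁, χ (ns : ZMod q) *
        ∑ j, ∑ b ∈ B, p j b * χ (b : ZMod q) * (∑' n : ℕ, χ (n : ZMod q) * a j n) =
        ∑ j, ∑ b ∈ B, p j b * (χ ((b * ns : ℕ) : ZMod q) *
          (∑' n : ℕ, χ (n : ZMod q) * a j n)) := by
      intro χ _
      rw [mul_sum]
      refine sum_congr rfl fun j _ => ?_
      rw [mul_sum]
      refine sum_congr rfl fun b _ => ?_
      rw [Nat.cast_mul, map_mul]
      ring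
    rw [sum_congr rfl e2, sum_comm]
    refine sum_congr rfl fun j _ => ?_
    rw [sum_comm]
    refine sum_congr rfl fun b _ => ?_
    rw [hTT, mul_sum]
  have hsm : ‖∑ j, ∑ b ∈ B, p j b * TT j b‖ ≤ K * (‖D0‖ / 2) := by
    rw [← hup0]
    refine (norm_sum_le _ _).trans ?_
    have h1 : ∀ χ ∈ Em q χ₀ M₁, ‖χ (ns : ZMod q) * ∑ j, ∑ b ∈ B, p j b * χ (b : ZMod q) *
        (∑' n : ℕ, χ (n : ZMod q) * a j n)‖ ≤ ‖D0‖ / 2 := by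
      intro χ hχ
      rw [norm_mul]
      refine (mul_le_of_le_one_left (norm_nonneg _) (DirichletCharacter.norm_le_one χ _)).trans ?_
      exact hLs χ hχ
    refine (sum_le_card_nsmul _ _ _ h1).trans (le_of_eq ?_)
    rw [nsmul_eq_mul, hK]
  have hKD : (K : ℂ) * D0 = ∑ j, ∑ b ∈ B, p j b * TT j b -
      ∑ j, ∑ b ∈ B, p j b * (TT j b - K * z j b) := by
    have e1 : D0 = ∑ j, ∑ b ∈ B, p j b * z j b := by rw [hD0, hz]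
    rw [e1, mul_sum, ← sum_sub_distrib]
    refine sum_congr rfl fun j _ => ?_
    rw [mul_sum, ← sum_sub_distrib]
    refine sum_congr rfl fun b _ => ?_
    ring
  have hTb : ∀ j, ∀ b ∈ B, ‖TT j b - K * z j b‖ ≤
      (d.divisors.card : ℝ) * (C j * Z98 * (d * E)) := by
    intro j b hb
    have h1 := main_abs horth hmob (ha j) q b n0 (b * ns) ((q : ℝ) ^ δ) y ((q : ℝ) ^ δ) hqδ hqδ
      (hB b hb) (hBq b hb) (hβ b) (hNS b hb) χ₀ M₁ hM₁1 hM₁d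
      (fun r hr hrM => hy r hr M₁ hM₁1 hM₁0 hrM)
    rw [← hE] at h1
    rw [hTT, hz, hK, hddef]
    exact h1
  have hup : (K : ℝ) * ‖D0‖ ≤ K * (‖D0‖ / 2) + Ct * ((d.divisors.card : ℝ) * (d * E)) := by
    have e1 : (K : ℝ) * ‖D0‖ = ‖(K : ℂ) * D0‖ := by
      rw [norm_mul, Complex.norm_natCast]
    rw [e1, hKD]
    refine (norm_sub_le _ _).trans (add_le_add hsm ?_)
    rw [hCt, sum_mul]
    refine (norm_sum_le _ _).trans (sum_le_sum fun j _ => ?_)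
    rw [sum_mul]
    refine (norm_sum_le _ _).trans (sum_le_sum fun b hb => ?_)
    rw [norm_mul]
    calc ‖p j b‖ * ‖TT j b - K * z j b‖ ≤
          ‖p j b‖ * ((d.divisors.card : ℝ) * (C j * Z98 * (d * E))) :=
          mul_le_mul_of_nonneg_left (hTb j b hb) (norm_nonneg _)
      _ = _ := by ring
  -- lower bound for `K`
  have hcard0 : K * Nat.totient M₁ = Nat.totient d := by
    obtain ⟨t, ht, -⟩ := hmob q χ₀ M₁ hM₁1 hM₁d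
    rw [hK, hddef]
    exact ht
  have hKφ : (Nat.totient d : ℝ) ≤ K * M₀ := by
    rw [← hcard0]
    push_cast
    have : (Nat.totient M₁ : ℝ) ≤ M₀ := by
      exact_mod_cast (Nat.totient_le M₁).trans hM₁0
    gcongr
  have hφ := H4 d (by omega)
  have hτ := hτ2 d hdpos'
  have hdρ : (d : ℝ) ^ ρ ≤ (q : ℝ) ^ ρ := Real.rpow_le_rpow hdpos.le hdq hρ0.le
  have hφpos : (0 : ℝ) < Nat.totient d := by
    exact_mod_cast Nat.totient_pos.2 (by omega)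
  have hdφ : (d : ℝ) ≤ C4 * Nat.totient d * (q : ℝ) ^ ρ := by
    have e1 : (d : ℝ) = (d : ℝ) ^ (1 - ρ) * (d : ℝ) ^ ρ := by
      rw [← Real.rpow_add hdpos]
      simp
    calc (d : ℝ) = (d : ℝ) ^ (1 - ρ) * (d : ℝ) ^ ρ := e1
      _ ≤ (C4 * Nat.totient d) * (q : ℝ) ^ ρ := by gcongr
  have hbig : (d.divisors.card : ℝ) * (d * E) ≤
      C2 * C4 * 2 * Nat.totient d * (q : ℝ) ^ (-(2 * ρ)) := by
    calc (d.divisors.card : ℝ) * (d * E) ≤ (C2 * (q : ℝ) ^ ρ) *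
          ((C4 * Nat.totient d * (q : ℝ) ^ ρ) * (2 * (q : ℝ) ^ (-(4 * ρ)))) := by
          have : (d.divisors.card : ℝ) ≤ C2 * (q : ℝ) ^ ρ := hτ.trans (by gcongr)
          gcongr
      _ = C2 * C4 * 2 * Nat.totient d * ((q : ℝ) ^ ρ * (q : ℝ) ^ ρ * (q : ℝ) ^ (-(4 * ρ))) := by
          ring
      _ = _ := by
          rw [← Real.rpow_add hqpos, ← Real.rpow_add hqpos]
          congr 2
          ring
  have hM₀R : (1 : ℝ) ≤ M₀ := by exact_mod_cast hM₀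
  have hKpos : (0 : ℝ) < K := by
    rcases Nat.eq_zero_or_pos K with h | h
    · rw [h, Nat.cast_zero, zero_mul] at hKφ
      linarith
    · exact_mod_cast h
  have hfin := H5 q hqc
  rw [zero_mul, add_zero] at hfin
  have hq2ρ : (q : ℝ) ^ (-(2 * ρ)) ≤ (q : ℝ) ^ (-ρ) :=
    Real.rpow_le_rpow_of_exponent_le hq1 (by linarith)
  have key : (K : ℝ) * ‖D0‖ ≤ K * ‖D0‖ *
      (2 * (Ct * C2 * C4 * M₀ * 2) / ‖D0‖ * (q : ℝ) ^ (-ρ)) := by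
    have h1 : (K : ℝ) * ‖D0‖ ≤ 2 * (Ct * ((d.divisors.card : ℝ) * (d * E))) := by linarith
    calc (K : ℝ) * ‖D0‖ ≤ 2 * (Ct * ((d.divisors.card : ℝ) * (d * E))) := h1
      _ ≤ 2 * (Ct * (C2 * C4 * 2 * (K * M₀) * (q : ℝ) ^ (-ρ))) := by
          refine mul_le_mul_of_nonneg_left (mul_le_mul_of_nonneg_left (hbig.trans ?_) hCt0)
            (by norm_num)
          gcongr
      _ = _ := by field_simp
  have : (K : ℝ) * ‖D0‖ * (2 * (Ct * C2 * C4 * M₀ * 2) / ‖D0‖ * (q : ℝ) ^ (-ρ)) <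
      K * ‖D0‖ * 1 := by
    gcongr
  linarith

end Pool.Agent.X284.NC
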