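import Pool.Agent.X284.NC.Pack
import Pool.Agent.X284.NC.Core
import Pool.Agent.X284.LI.PFin

/-!
# Linear combinations of the critical values of the twists at the noncentral integers
-/
set_option autoImplicit false

open Complex Filter Topology Set UpperHalfPlane MatrixGroups CongruenceSubgroup ZMod

namespace Pool.Agent.X284.NC

open Pool.Agent.W192.CY
open Pool.Agent.X284.KS
open Pool.Agent.X284.LI (gal_comb LF exists_n0)
open Pool.Agent.W440.TW (inv_primitive gauss_ne_zero gauss_conj)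

/-- the condition on the order -/
def OC (q : ℕ) (χ₀ : DirichletCharacter ℂ q) (M₀ : ℕ) (δ y : ℝ) : Prop :=
  ∀ r : ℕ, Squarefree r → ∀ M : ℕ, 1 ≤ M → M ≤ M₀ → r * M ∣ orderOf χ₀ →
    ((orderOf χ₀ / (r * M) : ℕ) : ℝ) ≤ orderOf χ₀ / (q : ℝ) ^ δ ∨
    (Nat.card (Hg q χ₀ (orderOf χ₀ / (r * M))) : ℝ) ≤ y

theorem one_comb {J : Type} [Fintype J] {a : J → ℕ → ℂ} {C : J → ℝ} (ha : ∀ j, Ac (a j) (C j))
    (h1 : ∀ j, a j 1 = 1) (hmul : ∀ j (m n : ℕ), Nat.Coprime m n → a j (m * n) = a j m * a j n)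
    (hne : ∀ i j, i ≠ j → {p : ℕ | p.Prime ∧ a i p ≠ a j p}.Infinite)
    (B : Finset ℕ) (hB : ∀ b ∈ B, 1 ≤ b) (p : J → ℕ → ℂ) (hp : ∃ j, ∃ b ∈ B, p j b ≠ 0)
    (S : Finset ℕ) (hS : ∀ b ∈ B, ∀ l : ℕ, l.Prime → l ∣ b → l ∉ S) {M₀ : ℕ} (hM₀ : 1 ≤ M₀) :
    ∃ n0 : ℕ, 1 ≤ n0 ∧ (∀ l : ℕ, l.Prime → l ∣ n0 → l ∉ S) ∧ ∃ A : ℝ, 0 < A ∧
    ∀ δ : ℝ, 0 < δ → δ ≤ 1 → ∃ q0 : ℝ, ∀ (q : ℕ) [NeZero q], q0 ≤ q →
      (∀ b ∈ B, Nat.Coprime b q) → Nat.Coprime n0 q →
      ∀ χ₀ : DirichletCharacter ℂ q, χ₀.IsPrimitive → ∀ y : ℝ,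
      (∀ b ∈ B, NSy q y ((q : ℝ) ^ δ) b n0) → OC q χ₀ M₀ δ y →
      ∃ k : ℕ, Nat.Coprime k (orderOf χ₀) ∧ k % M₀ = 1 % M₀ ∧ (χ₀ ^ k).IsPrimitive ∧
        A ≤ ‖∑ j, ∑ b ∈ B, p j b * (χ₀ ^ k) (b : ZMod q) *
          (∑' n : ℕ, (χ₀ ^ k) (n : ZMod q) * a j n)‖ := by
  classical
  obtain ⟨n0, hn0, hn0S, hD⟩ := exists_n0 (c := fun j n => a j n * n)
    (fun j => by rw [h1 j, Nat.cast_one, mul_one])
    (fun j m n h => by rw [hmul j m n h]; push_cast; ring)
    (fun i j hij => (hne i j hij).mono fun l hl => ⟨hl.1, fun h => hl.2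
      (mul_right_cancel₀ (by exact_mod_cast hl.1.ne_zero) h)⟩) B hB p hp S hS
  have hD' : ∑ j, ∑ b ∈ B, p j b * (if b ∣ n0 then a j (n0 / b) else 0) ≠ 0 := by
    intro h
    apply hD
    refine Eq.trans (Finset.sum_congr rfl fun j _ => Finset.sum_congr rfl fun b hb => ?_) h
    congr 1
    split_ifs with hd
    · have h2 : n0 / b ≠ 0 := by
        have := Nat.div_pos (Nat.le_of_dvd hn0 hd) (hB b hb)
        omega
      have h3 : ((n0 / b : ℕ) : ℂ) ≠ 0 := by exact_mod_cast h2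
      rw [mul_div_assoc, div_self h3, mul_one]
    · rfl
  refine ⟨n0, hn0, hn0S, _, half_pos (norm_pos_iff.2 hD'), fun δ hδ hδ1 => ?_⟩
  obtain ⟨q0, hq0⟩ := core_abs ha B hB p hD' hM₀ hδ hδ1
  exact ⟨q0, fun q _ h2 h3 h4 χ₀ h5 y h6 h7 => hq0 q h2 h3 h4 χ₀ h5 y h6 h7⟩

theorem Ac.norm_le {a : ℕ → ℂ} {C : ℝ} (h : Ac a C) {q : ℕ} (χ : DirichletCharacter ℂ q) :
    ‖∑' n : ℕ, χ (n : ZMod q) * a n‖ ≤ C * Z98 := by
  refine tsum_of_norm_bounded ((summ98.mul_left C).hasSum_iff.2 (by rw [tsum_mul_left]; rfl))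
    (fun n => ?_)
  rw [norm_mul]
  exact (mul_le_of_le_one_left (norm_nonneg _) (DirichletCharacter.norm_le_one χ _)).trans (h.le' n)

lemma gauss_sq_norm {q : ℕ} [NeZero q] (χ : DirichletCharacter ℂ q) (hχ : χ.IsPrimitive) :
    ‖gaussSum χ (stdAddChar (N := q)) ^ 2 / q‖ = 1 := by
  have hg0 : gaussSum χ (stdAddChar (N := q)) ≠ 0 := gauss_ne_zero χ hχ
  have h1 := Pool.Agent.W378.CY.root_number q χ hχ 1 (1 : ZMod q)
  rw [map_one, one_mul, one_mul, one_mul] at h1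
  rw [← h1, norm_div, norm_mul]
  have e1 : ‖gaussSum χ⁻¹ (stdAddChar (N := q))‖ = ‖gaussSum χ (stdAddChar (N := q))‖ :=
    gauss_conj χ
  have e2 : ‖χ (-(1 : ZMod q))‖ = 1 := by
    have hu : IsUnit (-(1 : ZMod q)) := isUnit_one.neg
    have := χ.unit_norm_eq_one hu.unit
    simpa using this
  rw [e1, e2, one_mul]
  exact div_self (norm_ne_zero_iff.2 hg0)

theorem nc_main {ι : Type} [Fintype ι] (P : ι → Newform) (i : ι → ℕ) (hi1 : ∀ j, 1 ≤ i j)
    (hi2 : ∀ j, i j < 2 * (P j).m) (him : ∀ j, i j ≠ (P j).m)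
    (hne : ∀ j k, j ≠ k → {p : ℕ | p.Prime ∧
      cf (P j).f p / (p : ℂ) ^ (i j) ≠ cf (P k).f p / (p : ℂ) ^ (i k)}.Infinite) :
    ∃ L : ι → (q : ℕ) → DirichletCharacter ℂ q → ℂ → ℂ, LF P L ∧
      ∀ (S : Finset ℕ), (∀ p ∈ S, p.Prime ∧ ∀ j, ¬ p ∣ (P j).N) → ∀ (B : Finset ℕ),
        (∀ b ∈ B, 1 ≤ b ∧ ∀ p ∈ S, ¬ p ∣ b) → ∀ x : ι → ℕ → ℂ, (∃ j, ∃ b ∈ B, x j b ≠ 0) →
        ∃ M₀ : ℕ, 1 ≤ M₀ ∧ ∃ NN : Finset (ℕ × ℕ),
          (∀ z ∈ NN, 1 ≤ z.1 ∧ 1 ≤ z.2 ∧ ∀ p ∈ S, ¬ p ∣ z.1 ∧ ¬ p ∣ z.2) ∧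
          ∀ δ : ℝ, 0 < δ → δ ≤ 1 → ∃ q0 : ℝ, ∀ (q : ℕ) [NeZero q], q0 ≤ q →
            (∀ j, Nat.Coprime q (P j).N) → (∀ b ∈ B, Nat.Coprime b q) →
            (∀ z ∈ NN, Nat.Coprime z.1 q ∧ Nat.Coprime z.2 q) →
            ∀ χ : DirichletCharacter ℂ q, χ.IsPrimitive → ∀ y : ℝ,
            (∀ z ∈ NN, NSy q y ((q : ℝ) ^ δ) z.1 z.2) → OC q χ M₀ δ y →
            ∑ j, ∑ b ∈ B, x j b * χ (b : ZMod q) * L j q χ (i j) ≠ 0 := by
  classical
  choose F hF hright hleft hsym using fun j => packA (P j).m_pos (P j).newf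
  refine ⟨F, fun j q χ h1 h2 h3 => hF j q χ h1 h2 h3, ?_⟩
  intro S hS B hB x hx
  choose W hWfg hval using fun j => hsym j (i j) (hi1 j) (hi2 j) (him j)
  obtain ⟨M₀, hM₀, hgal⟩ := gal_comb (N := fun j => (P j).N) (m := i) hWfg hval B x
  have hB1 : ∀ b ∈ B, 1 ≤ b := fun b hb => (hB b hb).1
  have hone : ∀ (j : ι) (e : ℕ), cf (P j).f 1 / ((1 : ℕ) : ℂ) ^ e = 1 := by
    intro j e
    rw [(P j).newf.one]
    simp
  have hmulc : ∀ (j : ι) (e m n : ℕ), Nat.Coprime m n → cf (P j).f (m * n) / ((m * n : ℕ) : ℂ) ^ e =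
      cf (P j).f m / (m : ℂ) ^ e * (cf (P j).f n / (n : ℂ) ^ e) := by
    intro j e m n h
    rw [(P j).newf.mul m n h]
    push_cast
    rw [mul_pow, mul_div_mul_comm]
  have hZ := Z98_nonneg
  by_cases hcase : ∀ j, (∃ b ∈ B, x j b ≠ 0) → (P j).m < i j
  · -- everything on the right of the centre
    choose C hC using fun j : {j : ι // (P j).m < i j} => ac_right (P j.1).m_pos (P j.1).newf j.2
    obtain ⟨n0, hn0, hn0S, A, hA, hδ⟩ := one_comb (J := {j : ι // (P j).m < i j})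
      (a := fun j n => cf (P j.1).f n / (n : ℂ) ^ (i j.1)) hC (fun j => hone j.1 _)
      (fun j m n h => hmulc j.1 _ m n h)
      (fun j k hjk => hne j.1 k.1 fun h => hjk (Subtype.ext h)) B hB1 (fun j b => x j.1 b) (by
        obtain ⟨j, b, hb, hjb⟩ := hx
        exact ⟨⟨j, hcase j ⟨b, hb, hjb⟩⟩, b, hb, hjb⟩) S
      (fun b hb l _ hl hlS => (hB b hb).2 l hlS hl) hM₀
    refine ⟨M₀, hM₀, B ×ˢ {n0}, ?_, fun δ h1 h2 => ?_⟩
    · rintro ⟨b, n⟩ hz
      rw [Finset.mem_product, Finset.mem_singleton] at hz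
      obtain ⟨hb, rfl⟩ := hz
      exact ⟨(hB b hb).1, hn0, fun p hp => ⟨(hB b hb).2 p hp, fun h => hn0S p (hS p hp).1 h hp⟩⟩
    · obtain ⟨q0, hq0⟩ := hδ δ h1 h2
      refine ⟨q0, fun q _ hq0q hqN hBq hNN χ hχ y hNS hOC h0 => ?_⟩
      have hn0q : Nat.Coprime n0 q := by
        obtain ⟨j, b, hb, hjb⟩ := hx
        exact (hNN (b, n0) (Finset.mem_product.2 ⟨hb, Finset.mem_singleton.2 rfl⟩)).2
      obtain ⟨k, hk1, hk2, hk3, hk4⟩ := hq0 q hq0q hBq hn0q χ hχ y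
        (fun b hb => hNS (b, n0) (Finset.mem_product.2 ⟨hb, Finset.mem_singleton.2 rfl⟩)) hOC
      have h5 := hgal q hqN hBq χ hχ k hk1 hk2 hk3 h0
      rw [← Fintype.sum_subtype_add_sum_subtype (fun j : ι => (P j).m < i j)] at h5
      have h6 : ∑ j : {j : ι // ¬ (P j).m < i j}, ∑ b ∈ B,
          x j.1 b * (χ ^ k) (b : ZMod q) * F j.1 q (χ ^ k) (i j.1) = 0 := by
        refine Finset.sum_eq_zero fun j _ => Finset.sum_eq_zero fun b hb => ?_
        have : x j.1 b = 0 := by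
          by_contra hne0
          exact j.2 (hcase j.1 ⟨b, hb, hne0⟩)
        rw [this, zero_mul, zero_mul]
      rw [h6, add_zero] at h5
      have h7 : ∑ j : {j : ι // (P j).m < i j}, ∑ b ∈ B,
          x j.1 b * (χ ^ k) (b : ZMod q) *
          (∑' n : ℕ, (χ ^ k) (n : ZMod q) * (cf (P j.1).f n / (n : ℂ) ^ (i j.1))) = 0 := by
        rw [← h5]
        refine Finset.sum_congr rfl fun j _ => Finset.sum_congr rfl fun b hb => ?_
        rw [hright j.1 q (χ ^ k) (hqN j.1) hk3 (i j.1) j.2]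
      rw [h7, norm_zero] at hk4
      linarith
  · -- the left side
    push Not at hcase
    obtain ⟨j1, hj1, hj1'⟩ := hcase
    obtain ⟨U, hU⟩ : ∃ U : Finset ι, U = Finset.univ.filter
      (fun j => (∃ b ∈ B, x j b ≠ 0) ∧ i j < (P j).m) := ⟨_, rfl⟩
    have hUne : U.Nonempty := by
      refine ⟨j1, ?_⟩
      rw [hU, Finset.mem_filter]
      exact ⟨Finset.mem_univ _, hj1, lt_of_le_of_ne hj1' (him j1)⟩
    obtain ⟨j0, hj0U, hj0max⟩ := Finset.exists_max_image U (fun j => (P j).m - i j) hUne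
    have hj0U' := hj0U
    rw [hU, Finset.mem_filter] at hj0U'
    obtain ⟨-, ⟨b0, hb0, hxb0⟩, hj0lt⟩ := hj0U'
    obtain ⟨D0, hD0⟩ : ∃ D0 : ℕ, D0 = (P j0).m - i j0 := ⟨_, rfl⟩
    have hD01 : 1 ≤ D0 := by omega
    have hlev : ∀ j, (∃ b ∈ B, x j b ≠ 0) → i j + D0 ≠ (P j).m →
        (P j).m < i j ∨ (i j < (P j).m ∧ (P j).m - i j ≤ D0 - 1) := by
      intro j hxj hjD
      rcases lt_or_gt_of_ne (him j) with h | h
      · right
        have hjU : j ∈ U := by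
          rw [hU, Finset.mem_filter]
          exact ⟨Finset.mem_univ _, hxj, h⟩
        have := hj0max j hjU
        refine ⟨h, ?_⟩
        omega
      · exact Or.inl h
    -- the bound for the other terms
    have hbd : ∀ j, ∃ Cj : ℝ, 0 ≤ Cj ∧ ((∃ b ∈ B, x j b ≠ 0) → i j + D0 ≠ (P j).m →
        ∀ (q : ℕ) [NeZero q] (χ : DirichletCharacter ℂ q), Nat.Coprime q (P j).N → χ.IsPrimitive →
        ‖F j q χ (i j)‖ ≤ Cj * (q : ℝ) ^ (2 * (D0 - 1))) := by
      intro j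
      by_cases h : (∃ b ∈ B, x j b ≠ 0) ∧ i j + D0 ≠ (P j).m
      · rcases hlev j h.1 h.2 with h1 | ⟨h1, h2⟩
        · obtain ⟨C, hC⟩ := ac_right (P j).m_pos (P j).newf h1
          have hC0 := hC.pos
          refine ⟨C * Z98, by positivity, fun _ _ q _ χ hqN hχ => ?_⟩
          have hq1 : (1 : ℝ) ≤ q := by exact_mod_cast Nat.one_le_iff_ne_zero.2 (NeZero.ne q)
          rw [hright j q χ hqN hχ (i j) h1]
          exact (hC.norm_le χ).trans (le_mul_of_one_le_right (by positivity) (one_le_pow₀ hq1))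
        · obtain ⟨C, hC⟩ := ac_right (i := 2 * (P j).m - i j) (P j).m_pos (P j).newf (by omega)
          have hC0 := hC.pos
          have hkp := kap_pos (m := (P j).m) (N := (P j).N) (i := i j)
          refine ⟨kap (P j).m (P j).N (i j) * (C * Z98), by positivity, fun _ _ q _ χ hqN hχ => ?_⟩
          have hq1 : (1 : ℝ) ≤ q := by exact_mod_cast Nat.one_le_iff_ne_zero.2 (NeZero.ne q)
          rw [hleft j q χ hqN hχ (i j) (hi1 j) h1]
          have hη : ‖(P j).η (q : ZMod (P j).N)‖ ≤ 1 := DirichletCharacter.norm_le_one _ _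
          have hχN : ‖χ ((P j).N : ZMod q)‖ ≤ 1 := DirichletCharacter.norm_le_one _ _
          have hg := gauss_sq_norm χ hχ
          have hG : ‖F j q χ ((2 * (P j).m - i j : ℕ) : ℂ)‖ ≤ C * Z98 := by
            rw [hright j q χ hqN hχ (2 * (P j).m - i j) (by omega)]
            exact hC.norm_le χ
          have hpw : (q : ℝ) ^ (2 * ((P j).m - i j)) ≤ (q : ℝ) ^ (2 * (D0 - 1)) :=
            pow_le_pow_right₀ hq1 (by omega)
          rw [mul_div_assoc ((P j).w * (P j).η (q : ZMod (P j).N) * χ ((P j).N : ZMod q))]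
          rw [norm_mul, norm_mul, norm_mul, norm_mul, norm_mul, hg, (P j).newf.norm, one_mul,
            mul_one, RCLike.norm_conj, Complex.norm_real, Real.norm_of_nonneg (by positivity)]
          calc ‖(P j).η (q : ZMod (P j).N)‖ * ‖χ ((P j).N : ZMod q)‖ *
                (kap (P j).m (P j).N (i j) * (q : ℝ) ^ (2 * ((P j).m - i j))) *
                ‖F j q χ ((2 * (P j).m - i j : ℕ) : ℂ)‖ ≤ 1 * 1 *
                (kap (P j).m (P j).N (i j) * (q : ℝ) ^ (2 * (D0 - 1))) * (C * Z98) := by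
                gcongr
            _ = _ := by ring
      · exact ⟨0, le_rfl, fun h1 h2 => absurd ⟨h1, h2⟩ h⟩
    choose Cj hCj0 hCj using hbd
    obtain ⟨C₁, hC₁⟩ : ∃ C₁ : ℝ, C₁ = ∑ j, ∑ b ∈ B, ‖x j b‖ * Cj j := ⟨_, rfl⟩
    have hC₁0 : 0 ≤ C₁ := by
      rw [hC₁]
      refine Finset.sum_nonneg fun j _ => Finset.sum_nonneg fun b _ => ?_
      have := hCj0 j
      positivity
    -- the integers
    obtain ⟨T, hT⟩ : ∃ T : ℕ, T = ∏ j : ι, ∏ b ∈ B, b * (P j).N := ⟨_, rfl⟩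
    have hNpos : ∀ j, 0 < (P j).N := fun j => Nat.pos_of_ne_zero (NeZero.ne _)
    have hTpos : 0 < T := by
      rw [hT]
      exact Finset.prod_pos fun j _ => Finset.prod_pos fun b hb =>
        Nat.mul_pos (hB1 b hb) (hNpos j)
    have hdT : ∀ j, ∀ b ∈ B, b * (P j).N ∣ T := by
      intro j b hb
      rw [hT]
      exact (Finset.dvd_prod_of_mem (fun b => b * (P j).N) hb).trans
        (Finset.dvd_prod_of_mem (fun j => ∏ b ∈ B, b * (P j).N) (Finset.mem_univ j))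
    have hTS : ∀ p ∈ S, ¬ p ∣ T := by
      intro p hp hpT
      rw [hT] at hpT
      have hpp := (hS p hp).1
      obtain ⟨j, -, h1⟩ := (hpp.prime.dvd_finsetProd_iff _).1 hpT
      obtain ⟨b, hb, h2⟩ := (hpp.prime.dvd_finsetProd_iff _).1 h1
      rcases (hpp.dvd_mul).1 h2 with h3 | h3
      · exact (hB b hb).2 p hp h3
      · exact (hS p hp).2 j h3
    have hTq : ∀ q : ℕ, (∀ j, Nat.Coprime q (P j).N) → (∀ b ∈ B, Nat.Coprime b q) →
        Nat.Coprime T q := by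
      intro q h1 h2
      rw [hT]
      refine Nat.Coprime.prod_left fun j _ => Nat.Coprime.prod_left fun b hb => ?_
      exact Nat.Coprime.mul_left (h2 b hb) (h1 j).symm
    let κ : ι → ℕ → ℕ := fun j b => T / (b * (P j).N)
    have hκ : ∀ j, ∀ b ∈ B, κ j b * (b * (P j).N) = T := fun j b hb => Nat.div_mul_cancel (hdT j b hb)
    have hκ1 : ∀ j, ∀ b ∈ B, 1 ≤ κ j b := by
      intro j b hb
      by_contra h
      have h1 := hκ j b hb
      have h2 : κ j b = 0 := by omega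
      rw [h2, zero_mul] at h1
      omega
    have hκinj : ∀ j, ∀ b ∈ B, ∀ b' ∈ B, κ j b = κ j b' → b = b' := by
      intro j b hb b' hb' h
      have h1 := hκ j b hb
      have h2 := hκ j b' hb'
      rw [h, ← h2] at h1
      have h3 := Nat.eq_of_mul_eq_mul_left (hκ1 j b' hb') h1
      exact Nat.eq_of_mul_eq_mul_right (hNpos j) h3
    obtain ⟨B', hB'⟩ : ∃ B' : Finset ℕ, B' = (Finset.univ ×ˢ B).image
      (fun z : ι × ℕ => κ z.1 z.2) := ⟨_, rfl⟩
    have hκB : ∀ j, ∀ b ∈ B, κ j b ∈ B' := by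
      intro j b hb
      rw [hB', Finset.mem_image]
      exact ⟨(j, b), Finset.mem_product.2 ⟨Finset.mem_univ _, hb⟩, rfl⟩
    have hB'T : ∀ k ∈ B', 1 ≤ k ∧ k ∣ T := by
      intro k hk
      rw [hB', Finset.mem_image] at hk
      obtain ⟨⟨j, b⟩, hz, rfl⟩ := hk
      have hb := (Finset.mem_product.1 hz).2
      exact ⟨hκ1 j b hb, Dvd.intro _ (hκ j b hb)⟩
    let pc : ℕ → {j : ι // i j + D0 = (P j).m} → ℕ → ℂ := fun r j k =>
      ∑ b ∈ B, if κ j.1 b = k then (starRingEnd ℂ) (x j.1 b * ((P j.1).w *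
        (P j.1).η (r : ZMod (P j.1).N))) * (kap (P j.1).m (P j.1).N (i j.1) : ℂ) else 0
    have hgt : ∀ j : {j : ι // i j + D0 = (P j).m}, (P j.1).m + 1 ≤ 2 * (P j.1).m - i j.1 := by
      intro j
      have := j.2
      omega
    choose C hC using fun j : {j : ι // i j + D0 = (P j).m} =>
      ac_right (P j.1).m_pos (P j.1).newf (hgt j)
    have hr : ∀ r : ℕ, ∃ n0 : ℕ, 1 ≤ n0 ∧ (∀ l : ℕ, l.Prime → l ∣ n0 → l ∉ S) ∧ ∃ A : ℝ, 0 < A ∧
        ((P j0).η (r : ZMod (P j0).N) ≠ 0 →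
        ∀ δ : ℝ, 0 < δ → δ ≤ 1 → ∃ q0 : ℝ, ∀ (q : ℕ) [NeZero q], q0 ≤ q →
        (∀ b ∈ B', Nat.Coprime b q) → Nat.Coprime n0 q →
        ∀ χ₀ : DirichletCharacter ℂ q, χ₀.IsPrimitive → ∀ y : ℝ,
        (∀ b ∈ B', NSy q y ((q : ℝ) ^ δ) b n0) → OC q χ₀ M₀ δ y →
        ∃ k : ℕ, Nat.Coprime k (orderOf χ₀) ∧ k % M₀ = 1 % M₀ ∧ (χ₀ ^ k).IsPrimitive ∧
        A ≤ ‖∑ j, ∑ b ∈ B', pc r j b * (χ₀ ^ k) (b : ZMod q) *
          (∑' n : ℕ, (χ₀ ^ k) (n : ZMod q) *
            (cf (P j.1).f n / (n : ℂ) ^ (2 * (P j.1).m - i j.1)))‖) := by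
      intro r
      by_cases hη0 : (P j0).η (r : ZMod (P j0).N) ≠ 0
      · obtain ⟨n0, h1, h2, A, hA, h3⟩ := one_comb (J := {j : ι // i j + D0 = (P j).m})
          (a := fun j n => cf (P j.1).f n / (n : ℂ) ^ (2 * (P j.1).m - i j.1)) hC
          (fun j => hone j.1 _) (fun j m n h => hmulc j.1 _ m n h)
          (fun j k hjk => (hne j.1 k.1 fun h => hjk (Subtype.ext h)).mono fun l hl => ⟨hl.1, by
            have hl0 : (l : ℂ) ≠ 0 := by exact_mod_cast hl.1.ne_zero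
            have e1 : ∀ j : {j : ι // i j + D0 = (P j).m},
                cf (P j.1).f l / (l : ℂ) ^ (2 * (P j.1).m - i j.1) =
                (cf (P j.1).f l / (l : ℂ) ^ (i j.1)) / (l : ℂ) ^ (2 * D0) := by
              intro j
              have := j.2
              rw [div_div, ← pow_add]
              congr 2
              omega
            intro h
            rw [e1 j, e1 k] at h
            exact hl.2 ((div_left_inj' (pow_ne_zero _ hl0)).1 h)⟩)
          B' (fun k hk => (hB'T k hk).1) (pc r) (by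
            have hj0D : i j0 + D0 = (P j0).m := by omega
            refine ⟨⟨j0, hj0D⟩, κ j0 b0, hκB j0 b0 hb0, ?_⟩
            show (∑ b ∈ B, if κ j0 b = κ j0 b0 then (starRingEnd ℂ) (x j0 b * ((P j0).w *
              (P j0).η (r : ZMod (P j0).N))) * (kap (P j0).m (P j0).N (i j0) : ℂ) else 0) ≠ 0
            rw [Finset.sum_eq_single b0]
            · rw [if_pos rfl]
              have hkp := kap_pos (m := (P j0).m) (N := (P j0).N) (i := i j0)
              have hw0 : (P j0).w ≠ 0 := by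
                rw [← norm_ne_zero_iff, (P j0).newf.norm]
                exact one_ne_zero
              refine mul_ne_zero ((map_ne_zero _).2 (mul_ne_zero hxb0 (mul_ne_zero hw0 hη0))) ?_
              exact_mod_cast hkp.ne'
            · intro b hb hbb
              rw [if_neg fun h => hbb (hκinj j0 b hb b0 hb0 h)]
            · intro h
              exact absurd hb0 h) S
          (fun k hk l hl hlk hlS => hTS l hlS (hlk.trans (hB'T k hk).2)) hM₀
        exact ⟨n0, h1, h2, A, hA, fun _ => h3⟩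
      · exact ⟨1, le_rfl, fun l hl h _ => hl.one_lt.ne' (Nat.dvd_one.1 h), 1, one_pos,
          fun h => absurd h hη0⟩
    choose n0 hn0 hn0S A hA hδ using hr
    obtain ⟨Lv, hLv⟩ : ∃ Lv : ℕ, Lv = ∏ j : ι, (P j).N := ⟨_, rfl⟩
    have hLvpos : 0 < Lv := by rw [hLv]; exact Finset.prod_pos fun j _ => hNpos j
    refine ⟨M₀, hM₀, (Finset.range Lv).biUnion (fun r => B' ×ˢ {n0 r}), ?_, fun δ h1 h2 => ?_⟩
    · rintro ⟨b, n⟩ hz
      rw [Finset.mem_biUnion] at hz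
      obtain ⟨r, -, hz⟩ := hz
      rw [Finset.mem_product, Finset.mem_singleton] at hz
      obtain ⟨hb, hn⟩ := hz
      have hn' : n = n0 r := hn
      subst hn'
      exact ⟨(hB'T b hb).1, hn0 r, fun p hp => ⟨fun h => hTS p hp (h.trans (hB'T b hb).2),
        fun h => hn0S r p (hS p hp).1 h hp⟩⟩
    · have hq0 : ∀ r : ℕ, ∃ q0 : ℝ, (P j0).η (r : ZMod (P j0).N) ≠ 0 →
          ∀ (q : ℕ) [NeZero q], q0 ≤ q →
          (∀ b ∈ B', Nat.Coprime b q) → Nat.Coprime (n0 r) q →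
          ∀ χ₀ : DirichletCharacter ℂ q, χ₀.IsPrimitive → ∀ y : ℝ,
          (∀ b ∈ B', NSy q y ((q : ℝ) ^ δ) b (n0 r)) → OC q χ₀ M₀ δ y →
          ∃ k : ℕ, Nat.Coprime k (orderOf χ₀) ∧ k % M₀ = 1 % M₀ ∧ (χ₀ ^ k).IsPrimitive ∧
          A r ≤ ‖∑ j, ∑ b ∈ B', pc r j b * (χ₀ ^ k) (b : ZMod q) *
            (∑' n : ℕ, (χ₀ ^ k) (n : ZMod q) *
              (cf (P j.1).f n / (n : ℂ) ^ (2 * (P j.1).m - i j.1)))‖ := by
        intro r
        by_cases h : (P j0).η (r : ZMod (P j0).N) ≠ 0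
        · obtain ⟨q0, hq0⟩ := hδ r h δ h1 h2
          exact ⟨q0, fun _ => hq0⟩
        · exact ⟨0, fun h' => absurd h' h⟩
      choose q0 hq0 using hq0
      refine ⟨∑ r ∈ Finset.range Lv, (|q0 r| + C₁ / A r) + 1,
        fun q _ hq0q hqN hBq hNN χ hχ y hNS hOC h0 => ?_⟩
      have hqpos : 0 < q := Nat.pos_of_ne_zero (NeZero.ne q)
      have hq1 : (1 : ℝ) ≤ q := by exact_mod_cast hqpos
      have hq00 : (0 : ℝ) < q := by linarith
      obtain ⟨r, hrdef⟩ : ∃ r : ℕ, r = q % Lv := ⟨_, rfl⟩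
      have hrL : r ∈ Finset.range Lv := by
        rw [hrdef, Finset.mem_range]
        exact Nat.mod_lt _ hLvpos
      have hηr : ∀ j, (r : ZMod (P j).N) = (q : ZMod (P j).N) := by
        intro j
        rw [ZMod.natCast_eq_natCast_iff, hrdef]
        refine (Nat.mod_modEq q Lv).of_dvd ?_
        rw [hLv]
        exact Finset.dvd_prod_of_mem (fun j => (P j).N) (Finset.mem_univ j)
      have hq0r : |q0 r| + C₁ / A r + 1 ≤ q := by
        refine le_trans ?_ hq0q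
        have := Finset.single_le_sum (f := fun r => |q0 r| + C₁ / A r) (fun r _ => by
          have := hA r
          positivity) hrL
        linarith
      have hAr := hA r
      have hq0r1 : q0 r ≤ q := by
        have := le_abs_self (q0 r)
        have : 0 ≤ C₁ / A r := by positivity
        linarith
      have hq0r2 : C₁ / A r < q := by
        have := abs_nonneg (q0 r)
        linarith
      have hη0 : (P j0).η (r : ZMod (P j0).N) ≠ 0 := by
        rw [hηr j0]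
        have hu : IsUnit (q : ZMod (P j0).N) := (ZMod.isUnit_iff_coprime q _).2 (hqN j0)
        exact (hu.map (P j0).η).ne_zero
      have hmem : ∀ b ∈ B', (b, n0 r) ∈ (Finset.range Lv).biUnion (fun r => B' ×ˢ {n0 r}) := by
        intro b hb
        rw [Finset.mem_biUnion]
        exact ⟨r, hrL, Finset.mem_product.2 ⟨hb, Finset.mem_singleton.2 rfl⟩⟩
      obtain ⟨k, hk1, hk2, hk3, hk4⟩ := hq0 r hη0 q hq0r1 (fun b hb => (hNN _ (hmem b hb)).1)
        (hNN _ (hmem _ (hκB j0 b0 hb0))).2 χ hχ y (fun b hb => hNS _ (hmem b hb)) hOC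
      have h5 := hgal q hqN hBq χ hχ k hk1 hk2 hk3 h0
      obtain ⟨ψ, hψ⟩ : ∃ ψ : DirichletCharacter ℂ q, ψ = χ ^ k := ⟨_, rfl⟩
      rw [← hψ] at hk3 hk4 h5
      have hTc := hTq q hqN hBq
      have hunit : ∀ n : ℕ, Nat.Coprime n q → ψ (n : ZMod q) * (starRingEnd ℂ) (ψ (n : ZMod q)) = 1 := by
        intro n hn
        have hu : IsUnit (n : ZMod q) := (ZMod.isUnit_iff_coprime n q).2 hn
        have h6 := ψ.unit_norm_eq_one hu.unit
        rw [IsUnit.unit_spec] at h6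
        rw [Complex.mul_conj, Complex.normSq_eq_norm_sq, h6]
        norm_num
      obtain ⟨G, hG⟩ : ∃ G : ι → ℂ, G = fun j => F j q ψ ((2 * (P j).m - i j : ℕ) : ℂ) := ⟨_, rfl⟩
      obtain ⟨Y, hY⟩ : ∃ Y : ℂ, Y = ∑ j : {j : ι // i j + D0 = (P j).m}, ∑ b ∈ B,
        x j.1 b * ((P j.1).w * (P j.1).η (q : ZMod (P j.1).N)) *
          (kap (P j.1).m (P j.1).N (i j.1) : ℂ) * ψ (b : ZMod q) * ψ ((P j.1).N : ZMod q) *
          (starRingEnd ℂ) (G j.1) := ⟨_, rfl⟩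
      have hZY : ∑ j : {j : ι // i j + D0 = (P j).m}, ∑ b ∈ B', pc r j b * ψ (b : ZMod q) *
            (∑' n : ℕ, ψ (n : ZMod q) *
              (cf (P j.1).f n / (n : ℂ) ^ (2 * (P j.1).m - i j.1))) =
          ψ (T : ZMod q) * (starRingEnd ℂ) Y := by
        rw [hY, map_sum, Finset.mul_sum]
        refine Finset.sum_congr rfl fun j _ => ?_
        rw [map_sum, Finset.mul_sum]
        have e1 : (∑' n : ℕ, ψ (n : ZMod q) *
              (cf (P j.1).f n / (n : ℂ) ^ (2 * (P j.1).m - i j.1))) = G j.1 := by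
          rw [hG]
          exact (hright j.1 q ψ (hqN j.1) hk3 _ (hgt j)).symm
        rw [e1]
        have e2 : ∀ k ∈ B', pc r j k * ψ (k : ZMod q) * G j.1 = ∑ b ∈ B,
            if κ j.1 b = k then (starRingEnd ℂ) (x j.1 b * ((P j.1).w *
              (P j.1).η (r : ZMod (P j.1).N))) * (kap (P j.1).m (P j.1).N (i j.1) : ℂ) *
              ψ (k : ZMod q) * G j.1 else 0 := by
          intro k _
          show (∑ b ∈ B, if κ j.1 b = k then (starRingEnd ℂ) (x j.1 b * ((P j.1).w *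
            (P j.1).η (r : ZMod (P j.1).N))) * (kap (P j.1).m (P j.1).N (i j.1) : ℂ) else 0) *
            ψ (k : ZMod q) * G j.1 = _
          rw [Finset.sum_mul, Finset.sum_mul]
          refine Finset.sum_congr rfl fun b _ => ?_
          split_ifs
          · rfl
          · rw [zero_mul, zero_mul]
        rw [Finset.sum_congr rfl e2, Finset.sum_comm]
        refine Finset.sum_congr rfl fun b hb => ?_
        rw [Finset.sum_ite_eq B' (κ j.1 b), if_pos (hκB j.1 b hb), hηr j.1]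
        have e3 : ψ (T : ZMod q) = ψ (κ j.1 b : ZMod q) * (ψ (b : ZMod q) *
            ψ ((P j.1).N : ZMod q)) := by
          rw [← map_mul, ← map_mul, ← Nat.cast_mul, ← Nat.cast_mul, hκ j.1 b hb]
        have e4 := hunit b (hBq b hb)
        have e5 := hunit (P j.1).N (hqN j.1).symm
        rw [e3]
        simp only [map_mul, Complex.conj_conj, Complex.conj_ofReal]
        linear_combination (-(starRingEnd ℂ) (x j.1 b) * ((starRingEnd ℂ) (P j.1).w *
            (starRingEnd ℂ) ((P j.1).η (q : ZMod (P j.1).N))) *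
            (kap (P j.1).m (P j.1).N (i j.1) : ℂ) * ψ (κ j.1 b : ZMod q) * G j.1) *
          (ψ ((P j.1).N : ZMod q) * (starRingEnd ℂ) (ψ ((P j.1).N : ZMod q)) * e4 + e5)
      -- the top terms
      obtain ⟨u, hu⟩ : ∃ u : ℂ, u = gaussSum ψ (stdAddChar (N := q)) ^ 2 / q := ⟨_, rfl⟩
      have hun : ‖u‖ = 1 := by rw [hu]; exact gauss_sq_norm ψ hk3
      have htop : ∑ j : {j : ι // i j + D0 = (P j).m}, ∑ b ∈ B,
          x j.1 b * ψ (b : ZMod q) * F j.1 q ψ (i j.1) = u * ((q : ℂ) ^ (2 * D0)) * Y := by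
        rw [hY, Finset.mul_sum]
        refine Finset.sum_congr rfl fun j _ => ?_
        rw [Finset.mul_sum]
        refine Finset.sum_congr rfl fun b _ => ?_
        have hj := j.2
        rw [hleft j.1 q ψ (hqN j.1) hk3 (i j.1) (hi1 j.1) (by omega), hG, hu]
        have e1 : (P j.1).m - i j.1 = D0 := by omega
        rw [e1]
        push_cast
        ring
      rw [← Fintype.sum_subtype_add_sum_subtype (fun j : ι => i j + D0 = (P j).m), htop] at h5
      have hrest : ‖∑ j : {j : ι // ¬ i j + D0 = (P j).m}, ∑ b ∈ B,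
          x j.1 b * ψ (b : ZMod q) * F j.1 q ψ (i j.1)‖ ≤ C₁ * (q : ℝ) ^ (2 * (D0 - 1)) := by
        have e1 : ∀ j : {j : ι // ¬ i j + D0 = (P j).m}, ‖∑ b ∈ B,
            x j.1 b * ψ (b : ZMod q) * F j.1 q ψ (i j.1)‖ ≤
            ∑ b ∈ B, ‖x j.1 b‖ * Cj j.1 * (q : ℝ) ^ (2 * (D0 - 1)) := by
          intro j
          refine (norm_sum_le _ _).trans (Finset.sum_le_sum fun b hb => ?_)
          by_cases hxb : x j.1 b = 0
          · rw [hxb, zero_mul, zero_mul, norm_zero, zero_mul, zero_mul]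
          · have e2 := hCj j.1 ⟨b, hb, hxb⟩ j.2 q ψ (hqN j.1) hk3
            rw [norm_mul, norm_mul]
            have e3 : ‖ψ (b : ZMod q)‖ ≤ 1 := DirichletCharacter.norm_le_one _ _
            calc ‖x j.1 b‖ * ‖ψ (b : ZMod q)‖ * ‖F j.1 q ψ (i j.1)‖ ≤
                  ‖x j.1 b‖ * 1 * (Cj j.1 * (q : ℝ) ^ (2 * (D0 - 1))) := by gcongr
              _ = _ := by ring
        refine (norm_sum_le _ _).trans ((Finset.sum_le_sum fun j _ => e1 j).trans ?_)
        rw [hC₁, ← Fintype.sum_subtype_add_sum_subtype (fun j : ι => i j + D0 = (P j).m), add_mul,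
          Finset.sum_mul, Finset.sum_mul]
        have e4 : 0 ≤ ∑ j : {j : ι // i j + D0 = (P j).m}, (∑ b ∈ B, ‖x j.1 b‖ * Cj j.1) *
            (q : ℝ) ^ (2 * (D0 - 1)) := by
          refine Finset.sum_nonneg fun j _ => mul_nonneg (Finset.sum_nonneg fun b _ => ?_)
            (by positivity)
          have := hCj0 j.1
          positivity
        have e5 : ∑ j : {j : ι // ¬ i j + D0 = (P j).m},
            ∑ b ∈ B, ‖x j.1 b‖ * Cj j.1 * (q : ℝ) ^ (2 * (D0 - 1)) =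
            ∑ j : {j : ι // ¬ i j + D0 = (P j).m}, (∑ b ∈ B, ‖x j.1 b‖ * Cj j.1) *
              (q : ℝ) ^ (2 * (D0 - 1)) :=
          Finset.sum_congr rfl fun j _ => by rw [Finset.sum_mul]
        rw [e5]
        linarith
      have hYn : ‖Y‖ * (q : ℝ) ^ 2 ≤ C₁ := by
        have e1 : u * ((q : ℂ) ^ (2 * D0)) * Y = -∑ j : {j : ι // ¬ i j + D0 = (P j).m}, ∑ b ∈ B,
          x j.1 b * ψ (b : ZMod q) * F j.1 q ψ (i j.1) := eq_neg_of_add_eq_zero_left h5
        have e2 : (q : ℝ) ^ (2 * D0) * ‖Y‖ ≤ C₁ * (q : ℝ) ^ (2 * (D0 - 1)) := by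
          refine le_trans (le_of_eq ?_) hrest
          rw [← norm_neg (∑ j : {j : ι // ¬ i j + D0 = (P j).m}, ∑ b ∈ B,
            x j.1 b * ψ (b : ZMod q) * F j.1 q ψ (i j.1)), ← e1, norm_mul, norm_mul, hun,
            norm_pow, Complex.norm_natCast, one_mul]
        have e3 : (q : ℝ) ^ (2 * D0) = (q : ℝ) ^ (2 * (D0 - 1)) * (q : ℝ) ^ 2 := by
          rw [← pow_add]
          congr 1
          omega
        rw [e3] at e2
        have e4 : (0 : ℝ) < (q : ℝ) ^ (2 * (D0 - 1)) := by positivity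
        have e5 : (q : ℝ) ^ (2 * (D0 - 1)) * (‖Y‖ * (q : ℝ) ^ 2) ≤ (q : ℝ) ^ (2 * (D0 - 1)) * C₁ := by
          linarith
        exact le_of_mul_le_mul_left e5 e4
      rw [hZY, norm_mul, RCLike.norm_conj] at hk4
      have hTn : ‖ψ (T : ZMod q)‖ ≤ 1 := DirichletCharacter.norm_le_one _ _
      have hAY : A r ≤ ‖Y‖ := hk4.trans (mul_le_of_le_one_left (norm_nonneg _) hTn)
      have e6 : A r * (q : ℝ) ^ 2 ≤ C₁ := (mul_le_mul_of_nonneg_right hAY (by positivity)).trans hYn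
      have e7 : C₁ < A r * q := by
        rw [div_lt_iff₀ hAr] at hq0r2
        linarith
      have e8 : (q : ℝ) ≤ (q : ℝ) ^ 2 := by nlinarith
      have e9 : A r * q ≤ A r * (q : ℝ) ^ 2 := mul_le_mul_of_nonneg_left e8 hAr.le
      linarith

end Pool.Agent.X284.NC
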