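import Pool.Agent.X284.KS.MelB

/-!
Mellin transform of a theta series of weight `2 κ`: the functional equation at the integers.
-/

set_option autoImplicit false

open Complex Filter Topology Set MeasureTheory

namespace Pool.Agent.X284.NC

open Pool.Agent.W192.HK
open Pool.Agent.W108.TW
open Pool.Agent.TH936.HK

lemma Th_conj (b : ℕ → ℂ) (c t : ℝ) :
    Th (fun n => (starRingEnd ℂ) (b n)) c t = (starRingEnd ℂ) (Th b c t) := by
  unfold Th
  rw [Complex.conj_tsum]
  refine tsum_congr fun n => ?_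
  rw [map_mul, Complex.conj_ofReal]

lemma mellin_conj_nat (b : ℕ → ℂ) (c : ℝ) {j : ℕ} (hj : 1 ≤ j) :
    mellin (Th (fun n => (starRingEnd ℂ) (b n)) c) (j : ℂ) =
      (starRingEnd ℂ) (mellin (Th b c) (j : ℂ)) := by
  unfold mellin
  rw [← integral_conj]
  refine setIntegral_congr_fun measurableSet_Ioi fun t (ht : 0 < t) => ?_
  show (t : ℂ) ^ ((j : ℂ) - 1) • Th (fun n => (starRingEnd ℂ) (b n)) c t = _
  rw [Th_conj, smul_eq_mul, smul_eq_mul, map_mul]
  congr 1
  have e : ((j : ℂ) - 1) = ((j - 1 : ℕ) : ℂ) := by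
    push_cast [Nat.cast_sub hj]
    ring
  rw [e, Complex.cpow_natCast, map_pow, Complex.conj_ofReal]

theorem mellinC (κ : ℕ) (hκ : 1 ≤ κ) (m C : ℝ) (hm : 0 ≤ m) (b : ℕ → ℂ) (R : ℝ) (hR1 : 1 ≤ R)
    (hb0 : b 0 = 0) (hb : ∀ n : ℕ, 1 ≤ n → ‖b n‖ ≤ C * (n : ℝ) ^ m) (w : ℂ) (hw1 : ‖w‖ = 1)
    (hfe : ∀ t : ℝ, 0 < t → ∑' n : ℕ, b n * (Real.exp (-(2 * Real.pi * n / R) / t) : ℂ) =
      w * (t : ℂ) ^ (2 * κ) * ∑' n : ℕ, (starRingEnd ℂ) (b n) *
        (Real.exp (-(2 * Real.pi * n / R) * t) : ℂ)) :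
    ∃ F : ℂ → ℂ, Differentiable ℂ F ∧
      (∀ s : ℂ, m + 2 < s.re → F s = ∑' n : ℕ, b n * (n : ℂ) ^ (-s)) ∧
      ∀ i : ℕ, 1 ≤ i → i < 2 * κ →
        (((i - 1).factorial : ℕ) : ℂ) * ((R / (2 * Real.pi) : ℝ) : ℂ) ^ i * F i =
        w * ((((2 * κ - i - 1).factorial : ℕ) : ℂ) * ((R / (2 * Real.pi) : ℝ) : ℂ) ^ (2 * κ - i) *
          (starRingEnd ℂ) (F ((2 * κ - i : ℕ) : ℂ))) := by
  have hpi := Real.pi_pos
  have hκr : (1 : ℝ) ≤ κ := by exact_mod_cast hκ
  have hR : 0 < R := by linarith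
  have hw : w ≠ 0 := by intro h; rw [h, norm_zero] at hw1; exact zero_ne_one hw1
  set c : ℝ := 2 * Real.pi / R with hc'
  have hc : 0 < c := by positivity
  have hb' : ∀ n : ℕ, 1 ≤ n → ‖(starRingEnd ℂ) (b n)‖ ≤ C * (n : ℝ) ^ m := by
    intro n hn; rw [RCLike.norm_conj]; exact hb n hn
  have hb0' : (starRingEnd ℂ) (b 0) = 0 := by rw [hb0, map_zero]
  have hrel : ∀ x : ℝ, 0 < x → Th b c (1 / x) =
      w * (x : ℂ) ^ (2 * κ) * Th (fun n => (starRingEnd ℂ) (b n)) c x := by
    intro x hx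
    have h := hfe x hx
    rw [Th, Th]
    have e1 : ∀ n : ℕ, -(c * n) * (1 / x) = -(2 * Real.pi * n / R) / x := by
      intro n; rw [hc']; ring
    have e2 : ∀ n : ℕ, -(c * n) * x = -(2 * Real.pi * n / R) * x := by
      intro n; rw [hc']; ring
    simp only [e1, e2]
    exact h
  let P : WeakFEPair ℂ :=
    { f := Th b c
      g := Th (fun n => (starRingEnd ℂ) (b n)) c
      k := ((2 * κ : ℕ) : ℝ)
      ε := w
      f₀ := 0
      g₀ := 0
      hf_int := (continuousOn_Th hb0 hb hc).locallyIntegrableOn measurableSet_Ioi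
      hg_int := (continuousOn_Th hb0' hb' hc).locallyIntegrableOn measurableSet_Ioi
      hk := by
        have : 0 < 2 * κ := by omega
        exact_mod_cast this
      hε := hw
      h_feq := by
        intro x (hx : 0 < x)
        rw [hrel x hx, smul_eq_mul]
        congr 2
        rw [Real.rpow_natCast]
        push_cast
        rfl
      hf_top := Th_isBigO hb0 hb hc
      hg_top := Th_isBigO hb0' hb' hc }
  have hP : IsStrongFEPair P := ⟨rfl, rfl⟩
  have hΛf : P.Λ = mellin (Th b c) := hP.Λ_eq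
  have hcC : (c : ℂ) ≠ 0 := by exact_mod_cast hc.ne'
  let F : ℂ → ℂ := fun s => P.Λ s * (c : ℂ) ^ s * (Complex.Gamma s)⁻¹
  refine ⟨F, ?_, ?_, ?_⟩
  · -- differentiable
    have h1 : Differentiable ℂ (fun s : ℂ => P.Λ s) := hP.differentiable_Λ
    have h2 : Differentiable ℂ (fun s : ℂ => (c : ℂ) ^ s) := by
      intro s
      exact (DifferentiableAt.const_cpow (by fun_prop) (Or.inl hcC))
    have h3 : Differentiable ℂ (fun s : ℂ => (Complex.Gamma s)⁻¹) :=
      Complex.differentiable_one_div_Gamma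
    exact (h1.mul h2).mul h3
  · -- Dirichlet series
    intro S hSm
    have hSpos : 0 < S.re := by linarith
    have hG : Complex.Gamma S ≠ 0 := Complex.Gamma_ne_zero_of_re_pos hSpos
    have h1 := hasSum_mellin (a := b) (p := fun n : ℕ => c * n) (F := Th b c) (s := S)
      (by
        intro n
        rcases Nat.eq_zero_or_pos n with rfl | hn
        · exact Or.inl hb0
        · right
          have : (0 : ℝ) < n := by exact_mod_cast hn
          positivity) hSpos
      (by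
        intro t (ht : 0 < t)
        exact (summable_term hb0 hb hc ht).hasSum)
      (by
        have h2 : Summable (fun n : ℕ => |C| / c ^ S.re * (n : ℝ) ^ (m - S.re)) :=
          (Real.summable_nat_rpow.mpr (by linarith)).mul_left _
        refine Summable.of_nonneg_of_le (fun n => by positivity) (fun n => ?_) h2
        rcases Nat.eq_zero_or_pos n with rfl | hn
        · rw [hb0, norm_zero, zero_div]; positivity
        · have hn' : (0 : ℝ) < n := by exact_mod_cast hn
          have h3 : ‖b n‖ ≤ |C| * (n : ℝ) ^ m :=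
            (hb n hn).trans (mul_le_mul_of_nonneg_right (le_abs_self C) (by positivity))
          rw [Real.mul_rpow hc.le hn'.le, Real.rpow_sub hn', div_mul_div_comm]
          exact div_le_div_of_nonneg_right h3 (by positivity))
    have h2 := h1.tsum_eq
    have h3 : F S = (∑' n : ℕ, Complex.Gamma S * b n / ((c * n : ℝ) : ℂ) ^ S) * (c : ℂ) ^ S *
        (Complex.Gamma S)⁻¹ := by
      simp only [F]
      rw [hΛf, ← h2]
    have hcs : (c : ℂ) ^ S ≠ 0 := by
      rw [Complex.cpow_def_of_ne_zero hcC]; exact Complex.exp_ne_zero _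
    rw [h3, ← tsum_mul_right, ← tsum_mul_right]
    refine tsum_congr (fun n => ?_)
    rcases Nat.eq_zero_or_pos n with rfl | hn
    · rw [hb0]; simp
    · have hn' : (n : ℂ) ≠ 0 := by exact_mod_cast hn.ne'
      have hnS : (n : ℂ) ^ S ≠ 0 := by
        rw [Complex.cpow_def_of_ne_zero hn']; exact Complex.exp_ne_zero _
      rw [Complex.ofReal_mul, Complex.mul_cpow_ofReal_nonneg hc.le (Nat.cast_nonneg n),
        Complex.cpow_neg]
      simp only [Complex.ofReal_natCast]
      field_simp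
  · -- the functional equation
    intro i hi1 hi2
    have hval : ∀ j : ℕ, 1 ≤ j → (((j - 1).factorial : ℕ) : ℂ) *
        ((R / (2 * Real.pi) : ℝ) : ℂ) ^ j * F j = mellin (Th b c) (j : ℂ) := by
      intro j hj
      have hfa : (((j - 1).factorial : ℕ) : ℂ) ≠ 0 := by
        exact_mod_cast (Nat.factorial_pos (j - 1)).ne'
      have hGam : Complex.Gamma (j : ℂ) = (((j - 1).factorial : ℕ) : ℂ) := by
        obtain ⟨k, rfl⟩ : ∃ k, j = k + 1 := ⟨j - 1, by omega⟩
        simp only [Nat.add_sub_cancel]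
        push_cast
        exact Complex.Gamma_nat_eq_factorial k
      have hcR : ((R / (2 * Real.pi) : ℝ) : ℂ) ^ j * (c : ℂ) ^ j = 1 := by
        rw [← mul_pow, ← Complex.ofReal_mul, hc']
        have : R / (2 * Real.pi) * (2 * Real.pi / R) = 1 := by field_simp
        rw [this]
        simp
      show (((j - 1).factorial : ℕ) : ℂ) * ((R / (2 * Real.pi) : ℝ) : ℂ) ^ j *
        (P.Λ j * (c : ℂ) ^ (j : ℂ) * (Complex.Gamma j)⁻¹) = _
      rw [hGam, hΛf, Complex.cpow_natCast]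
      calc (((j - 1).factorial : ℕ) : ℂ) * ((R / (2 * Real.pi) : ℝ) : ℂ) ^ j *
            (mellin (Th b c) (j : ℂ) * (c : ℂ) ^ j * (((j - 1).factorial : ℕ) : ℂ)⁻¹) =
            ((((j - 1).factorial : ℕ) : ℂ) * (((j - 1).factorial : ℕ) : ℂ)⁻¹) *
              (((R / (2 * Real.pi) : ℝ) : ℂ) ^ j * (c : ℂ) ^ j) * mellin (Th b c) (j : ℂ) := by ring
        _ = _ := by rw [hcR, mul_inv_cancel₀ hfa]; ring
    have hj1 : 1 ≤ 2 * κ - i := by omega
    have h1 := P.functional_equation ((2 * κ - i : ℕ) : ℂ)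
    have hk : ((P.k : ℝ) : ℂ) - ((2 * κ - i : ℕ) : ℂ) = (i : ℂ) := by
      show ((((2 * κ : ℕ) : ℝ)) : ℂ) - ((2 * κ - i : ℕ) : ℂ) = (i : ℂ)
      have h7 : (2 * κ - i : ℕ) + i = 2 * κ := by omega
      have h8 : (((2 * κ - i : ℕ) : ℂ)) + i = ((2 * κ : ℕ) : ℂ) := by exact_mod_cast h7
      rw [Complex.ofReal_natCast, ← h8]
      ring
    rw [hk, hP.symm_Λ_eq, hΛf] at h1
    have h2 : mellin P.g ((2 * κ - i : ℕ) : ℂ) =
        (starRingEnd ℂ) (mellin (Th b c) ((2 * κ - i : ℕ) : ℂ)) := mellin_conj_nat b c hj1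
    rw [h2] at h1
    have h3 : P.ε = w := rfl
    rw [h3, smul_eq_mul] at h1
    rw [hval i hi1, h1, ← hval (2 * κ - i) hj1]
    simp only [map_mul, map_pow, Complex.conj_ofReal, Complex.conj_natCast]

end Pool.Agent.X284.NC
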