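import Pool.Agent.X284.NC.Val
import Pool.Agent.X284.NC.MelC
import Pool.Agent.X284.NC.Abs
import Pool.Agent.X284.LI.Pack

/-!
The twists of a newform of weight `2 m` with nebentypus at the critical integers different from the
centre.
-/

set_option autoImplicit false

open Complex Filter Topology Set UpperHalfPlane MatrixGroups CongruenceSubgroup ZMod

namespace Pool.Agent.X284.NC

open Pool.Agent.W192.CY
open Pool.Agent.X284.KS
open Pool.Agent.W440.TW (inv_primitive gauss_ne_zero gauss_conj)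

lemma conj_gauss {q : ℕ} [NeZero q] (χ : DirichletCharacter ℂ q) :
    (starRingEnd ℂ) (gaussSum χ⁻¹ (stdAddChar (N := q))) =
      χ (-1) * gaussSum χ (stdAddChar (N := q)) := by
  have h1 : (starRingEnd ℂ) (gaussSum χ⁻¹ (stdAddChar (N := q))) =
      gaussSum χ (stdAddChar (N := q))⁻¹ := by
    unfold gaussSum
    rw [map_sum]
    refine Finset.sum_congr rfl fun u _ => ?_
    rw [map_mul, AddChar.inv_apply, AddChar.map_neg_eq_conj]
    congr 1
    have h2 := MulChar.star_apply' (χ⁻¹) u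
    rw [inv_inv] at h2
    exact h2
  rw [h1]
  have h2 := gaussSum_mulShift χ (stdAddChar (N := q)) (-1 : (ZMod q)ˣ)
  have h3 : χ (-1) * χ (-1) = 1 := by
    rw [← map_mul]
    simp
  have h4 : (stdAddChar (N := q)).mulShift (((-1 : (ZMod q)ˣ) : ZMod q)) =
      (stdAddChar (N := q))⁻¹ := by
    rw [AddChar.inv_mulShift]
    rfl
  rw [h4] at h2
  rw [← h2, ← mul_assoc]
  have h5 : χ (((-1 : (ZMod q)ˣ) : ZMod q)) = χ (-1) := rfl
  rw [h5, h3, one_mul]

/-- the coefficients at an integer in the region of absolute convergence -/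
theorem ac_right {m N : ℕ} [NeZero N] (hm : 1 ≤ m) {η : DirichletCharacter ℂ N}
    {f : CuspForm (Gamma1 N : Subgroup (GL (Fin 2) ℝ)) (2 * m : ℤ)} {w : ℂ}
    (hf : NNewf m N η f w) {i : ℕ} (hi : m + 1 ≤ i) :
    ∃ C : ℝ, Ac (fun n => cf f n / (n : ℂ) ^ i) C := by
  obtain ⟨μ, hμ⟩ := Pool.Agent.W804.CY.n_coef m hm N η f w hf
  obtain ⟨C, hC, hτ, -⟩ := Pool.Agent.W216.CY.t_div (1 / 4) (by norm_num)
  refine ⟨C, by simp [cf_zero], hC, fun n hn => ?_⟩
  have hn1 : (1 : ℝ) ≤ n := by exact_mod_cast hn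
  have hn0 : (0 : ℝ) < n := by linarith
  have h1 := hμ.cle n hn
  have h2 := hτ n hn
  rw [norm_div, norm_pow, Complex.norm_natCast, cf_eq (f := f) hn, norm_mul, norm_pow,
    Complex.norm_natCast]
  have h3 : ‖cf f n / (n : ℂ) ^ (m - 1)‖ ≤ C * (n : ℝ) ^ (3 / 4 : ℝ) := by
    refine h1.trans ?_
    calc (n.divisors.card : ℝ) * Real.sqrt n ≤ C * (n : ℝ) ^ (1 / 4 : ℝ) * (n : ℝ) ^ (1 / 2 : ℝ) := by
          rw [Real.sqrt_eq_rpow]
          gcongr
      _ = _ := by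
          rw [mul_assoc, ← Real.rpow_add hn0]
          norm_num
  have h4 : (n : ℝ) ^ (m - 1) * (n : ℝ) ^ 2 ≤ (n : ℝ) ^ i := by
    rw [← pow_add]
    exact pow_le_pow_right₀ hn1 (by omega)
  rw [div_le_iff₀ (by positivity)]
  have h5 : (n : ℝ) ^ (3 / 4 : ℝ) = (n : ℝ) ^ (-(5 / 4) : ℝ) * (n : ℝ) ^ 2 := by
    rw [← Real.rpow_natCast (n : ℝ) 2, ← Real.rpow_add hn0]
    norm_num
  calc ‖cf f n / (n : ℂ) ^ (m - 1)‖ * (n : ℝ) ^ (m - 1) ≤
        (C * ((n : ℝ) ^ (-(5 / 4) : ℝ) * (n : ℝ) ^ 2)) * (n : ℝ) ^ (m - 1) := by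
        rw [← h5]
        gcongr
    _ = C * (n : ℝ) ^ (-(5 / 4) : ℝ) * ((n : ℝ) ^ (m - 1) * (n : ℝ) ^ 2) := by ring
    _ ≤ C * (n : ℝ) ^ (-(5 / 4) : ℝ) * (n : ℝ) ^ i :=
        mul_le_mul_of_nonneg_left h4 (by positivity)

/-- the constant of the functional equation between `i` and `2 m - i` -/
noncomputable def kap (m N i : ℕ) : ℝ :=
  ((2 * m - i - 1).factorial : ℝ) / ((i - 1).factorial : ℝ) * ((N : ℝ) / (4 * Real.pi ^ 2)) ^ (m - i)

lemma kap_pos {m N i : ℕ} [NeZero N] : 0 < kap m N i := by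
  have h1 : (0 : ℝ) < N := Nat.cast_pos.2 (Nat.pos_of_ne_zero (NeZero.ne N))
  have h2 : (0 : ℝ) < ((2 * m - i - 1).factorial : ℝ) := by exact_mod_cast Nat.factorial_pos _
  have h3 : (0 : ℝ) < ((i - 1).factorial : ℝ) := by exact_mod_cast Nat.factorial_pos _
  have := Real.pi_pos
  unfold kap
  positivity

theorem packA {m N : ℕ} [NeZero N] (hm : 1 ≤ m) {η : DirichletCharacter ℂ N}
    {f : CuspForm (Gamma1 N : Subgroup (GL (Fin 2) ℝ)) (2 * m : ℤ)} {w : ℂ}
    (hf : NNewf m N η f w) :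
    ∃ (F : (q : ℕ) → DirichletCharacter ℂ q → ℂ → ℂ),
      (∀ (q : ℕ) (χ : DirichletCharacter ℂ q), 1 ≤ q → Nat.Coprime q N → χ.IsPrimitive →
        Differentiable ℂ (F q χ) ∧ (∀ s : ℂ, (m : ℝ) + 1 / 2 < s.re →
          HasProd (fun p : Nat.Primes =>
            (1 - χ ((p : ℕ) : ZMod q) * cf f p * ((p : ℕ) : ℂ) ^ (-s) +
              χ ((p : ℕ) : ZMod q) ^ 2 * η ((p : ℕ) : ZMod N) *
                ((p : ℕ) : ℂ) ^ (2 * (m : ℂ) - 1 - 2 * s))⁻¹) (F q χ s))) ∧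
      (∀ (q : ℕ) [NeZero q] (χ : DirichletCharacter ℂ q), Nat.Coprime q N → χ.IsPrimitive →
        ∀ i : ℕ, m + 1 ≤ i → F q χ i = ∑' n : ℕ, χ (n : ZMod q) * (cf f n / (n : ℂ) ^ i)) ∧
      (∀ (q : ℕ) [NeZero q] (χ : DirichletCharacter ℂ q), Nat.Coprime q N → χ.IsPrimitive →
        ∀ i : ℕ, 1 ≤ i → i < m → F q χ i = (w * η (q : ZMod N)) * χ (N : ZMod q) *
          gaussSum χ (ZMod.stdAddChar (N := q)) ^ 2 / q * ((kap m N i * (q : ℝ) ^ (2 * (m - i)) : ℝ) : ℂ)
          * (starRingEnd ℂ) (F q χ ((2 * m - i : ℕ) : ℂ))) ∧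
      ∀ i : ℕ, 1 ≤ i → i < 2 * m → i ≠ m → ∃ W : Submodule ℚ ℂ, W.FG ∧
        ∀ (q : ℕ) [NeZero q], Nat.Coprime q N → ∃ v : (ZMod q)ˣ → ℂ, (∀ u, v u ∈ W) ∧
        ∀ ψ : DirichletCharacter ℂ q, ψ.IsPrimitive →
          gaussSum ψ⁻¹ (stdAddChar (N := q)) * F q ψ i =
            ∑ u : (ZMod q)ˣ, ψ⁻¹ (u : ZMod q) * v u := by
  classical
  have hNn : 0 < N := Nat.pos_of_ne_zero (NeZero.ne N)
  have hN1 : (1 : ℝ) ≤ N := by exact_mod_cast hNn
  have hN0 : (0 : ℝ) < N := by linarith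
  have hsN : 1 ≤ Real.sqrt N := Real.one_le_sqrt.2 hN1
  have hpi := Real.pi_pos
  have hmr : (1 : ℝ) ≤ m := by exact_mod_cast hm
  -- the functions
  have hex : ∀ (q : ℕ) (χ : DirichletCharacter ℂ q), ∃ F : ℂ → ℂ,
      (∀ (_ : NeZero q), 1 ≤ q → Nat.Coprime q N → χ.IsPrimitive → Differentiable ℂ F ∧
        (∀ s : ℂ, (m : ℝ) + 1 / 2 < s.re →
          F s = ∑' n : ℕ, χ (n : ZMod q) * cf f n * (n : ℂ) ^ (-s)) ∧
        (∀ i : ℕ, 1 ≤ i → i < m → F i = (w * η (q : ZMod N)) * χ (N : ZMod q) *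
          gaussSum χ (ZMod.stdAddChar (N := q)) ^ 2 / q * ((kap m N i * (q : ℝ) ^ (2 * (m - i)) : ℝ) : ℂ)
          * (starRingEnd ℂ) (F ((2 * m - i : ℕ) : ℂ)))) := by
    intro q χ
    by_cases h : 1 ≤ q ∧ Nat.Coprime q N ∧ χ.IsPrimitive
    · obtain ⟨h1, h2, h3⟩ := h
      have : NeZero q := ⟨by omega⟩
      have hq1 : (1 : ℝ) ≤ q := by exact_mod_cast h1
      have hq0 : (0 : ℝ) < q := by linarith
      have hRq : 1 ≤ Real.sqrt N * q := by nlinarith
      set w' : ℂ := (w * η (q : ZMod N)) * χ (N : ZMod q) *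
        gaussSum χ (stdAddChar (N := q)) ^ 2 / q with hw'
      have hχi := inv_primitive χ h3
      have hg0 : gaussSum χ (stdAddChar (N := q)) ≠ 0 := gauss_ne_zero χ h3
      have hwn : ‖w'‖ = 1 := by
        have e1 : ‖gaussSum χ⁻¹ (stdAddChar (N := q))‖ = ‖gaussSum χ (stdAddChar (N := q))‖ :=
          gauss_conj χ
        have e2 : ‖χ (-(N : ZMod q))‖ = 1 := by
          have hu : IsUnit (-(N : ZMod q)) :=
            ((ZMod.isUnit_iff_coprime N q).2 h2.symm).neg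
          have := χ.unit_norm_eq_one hu.unit
          simpa using this
        have e3 : ‖η (q : ZMod N)‖ = 1 := by
          have hu : IsUnit (q : ZMod N) := (ZMod.isUnit_iff_coprime q N).2 h2
          have := η.unit_norm_eq_one hu.unit
          simpa using this
        rw [hw', ← Pool.Agent.W378.CY.root_number q χ h3 (w * η (q : ZMod N)) (N : ZMod q),
          norm_div, norm_mul, norm_mul, norm_mul, hf.norm, e3, e2, e1, one_mul, one_mul, one_mul]
        exact div_self (norm_ne_zero_iff.2 hg0)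
      have htheta : ∀ t : ℝ, 0 < t → ∑' n : ℕ, χ (n : ZMod q) * cf f n *
          (Real.exp (-(2 * Real.pi * n / (Real.sqrt N * q)) / t) : ℂ) =
          w' * (t : ℂ) ^ (2 * m) * ∑' n : ℕ, (starRingEnd ℂ) (χ (n : ZMod q) * cf f n) *
            (Real.exp (-(2 * Real.pi * n / (Real.sqrt N * q)) * t) : ℂ) := fun t ht =>
        Pool.Agent.W597.CYN.n_twist m hm N η f w hf q χ h2 h3 t ht
      obtain ⟨F, hF1, hF2, hF3⟩ := mellinC m hm ((m : ℝ) + 1) 1 (by positivity)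
        (fun n => χ (n : ZMod q) * cf f n)
        (Real.sqrt N * q) hRq (by rw [cf_zero, mul_zero]) (fun n hn => by
          rw [norm_mul]
          have e1 := DirichletCharacter.norm_le_one χ (n : ZMod q)
          calc ‖χ (n : ZMod q)‖ * ‖cf f n‖ ≤ 1 * ‖cf f n‖ := by
                gcongr
            _ = ‖cf f n‖ := one_mul _
            _ ≤ _ := cf_bound hm hf hn) w' hwn htheta
      have hser : ∀ s : ℂ, (m : ℝ) + 1 / 2 < s.re →
          F s = ∑' n : ℕ, χ (n : ZMod q) * cf f n * (n : ℂ) ^ (-s) := by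
        intro s hs
        exact Pool.Agent.TH936.HK.ext_series F hF1 (fun n => χ (n : ZMod q) * cf f n)
          (by rw [cf_zero, mul_zero]) ((m : ℝ) + 1 / 2)
          (fun s hs => (n_eul m hm N η f w hf q χ s hs).1) ((m : ℝ) + 1 + 2) hF2 s hs
      refine ⟨F, fun _ _ _ _ => ⟨hF1, hser, fun i hi1 hi2 => ?_⟩⟩
      have h5 := hF3 i hi1 (by omega)
      have hfa : (((i - 1).factorial : ℕ) : ℂ) ≠ 0 := by
        exact_mod_cast (Nat.factorial_pos (i - 1)).ne'
      obtain ⟨R, hR⟩ : ∃ R : ℝ, R = Real.sqrt N * q / (2 * Real.pi) := ⟨_, rfl⟩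
      have hR0 : 0 < R := by rw [hR]; positivity
      have hRc : ((R : ℝ) : ℂ) ≠ 0 := by exact_mod_cast hR0.ne'
      have hpow : R ^ (2 * m - i) = R ^ i * (((N : ℝ) / (4 * Real.pi ^ 2)) ^ (m - i) *
          (q : ℝ) ^ (2 * (m - i))) := by
        have e1 : 2 * m - i = i + 2 * (m - i) := by omega
        rw [e1, pow_add, pow_mul R 2, pow_mul (q : ℝ) 2, ← mul_pow]
        congr 2
        rw [hR, div_pow, mul_pow, Real.sq_sqrt hN0.le]
        ring
      rw [← hR] at h5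
      have h6 : (((2 * m - i - 1).factorial : ℕ) : ℂ) * ((R : ℝ) : ℂ) ^ (2 * m - i) =
          (((i - 1).factorial : ℕ) : ℂ) * ((R : ℝ) : ℂ) ^ i *
            ((kap m N i * (q : ℝ) ^ (2 * (m - i)) : ℝ) : ℂ) := by
        rw [← Complex.ofReal_pow, hpow]
        unfold kap
        push_cast
        field_simp
      rw [h6] at h5
      have h7 : (((i - 1).factorial : ℕ) : ℂ) * ((R : ℝ) : ℂ) ^ i ≠ 0 :=
        mul_ne_zero hfa (pow_ne_zero _ hRc)
      apply mul_left_cancel₀ h7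
      rw [h5]
      ring
    · exact ⟨fun _ => 0, fun _ h1 h2 h3 => absurd ⟨h1, h2, h3⟩ h⟩
  choose F hF using hex
  obtain ⟨c1, W, hW⟩ := newf_space hm hf
  have hright : ∀ (q : ℕ) [NeZero q] (χ : DirichletCharacter ℂ q), Nat.Coprime q N →
      χ.IsPrimitive → ∀ i : ℕ, m + 1 ≤ i →
      F q χ i = ∑' n : ℕ, χ (n : ZMod q) * (cf f n / (n : ℂ) ^ i) := by
    intro q _ χ hqN hχ i hi
    have hq1 : 1 ≤ q := Nat.one_le_iff_ne_zero.2 (NeZero.ne q)
    have h1 := (hF q χ inferInstance hq1 hqN hχ).2.1 (i : ℂ) (by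
      rw [Complex.natCast_re]
      have : ((m + 1 : ℕ) : ℝ) ≤ i := by exact_mod_cast hi
      push_cast at this
      linarith)
    rw [h1]
    refine tsum_congr fun n => ?_
    rw [Complex.cpow_neg, Complex.cpow_natCast]
    ring
  have hleft := fun (q : ℕ) (_ : NeZero q) (χ : DirichletCharacter ℂ q) (hqN : Nat.Coprime q N)
    (hχ : χ.IsPrimitive) => (hF q χ inferInstance
      (Nat.one_le_iff_ne_zero.2 (NeZero.ne q)) hqN hχ).2.2
  -- symbols at the right
  have hsymR : ∀ i : ℕ, m + 1 ≤ i → i < 2 * m → ∀ (q : ℕ) [NeZero q], Nat.Coprime q N →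
      ∃ v : (ZMod q)ˣ → ℂ,
        (∀ u, v u ∈ W.map (LinearMap.mulLeft ℚ ((2 * Real.pi * Complex.I : ℂ) ^ i))) ∧
        ∀ ψ : DirichletCharacter ℂ q, ψ.IsPrimitive →
          gaussSum ψ⁻¹ (stdAddChar (N := q)) * F q ψ i =
            ∑ u : (ZMod q)ˣ, ψ⁻¹ (u : ZMod q) * v u := by
    intro i hi hi2 q _ hqN
    obtain ⟨C, hC⟩ := ac_right hm hf hi
    obtain ⟨v, hv1, hv2⟩ := right_val (D := 2 * m - 2) (κ := i) (by omega) (by omega) (cf_Bd hm hf)
      (Bd_conj (cf_Bd hm hf)) hC.summ hW hqN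
    refine ⟨v, hv1, fun ψ hψ => ?_⟩
    have h1 := hv2 ψ⁻¹ (inv_primitive ψ hψ)
    rw [inv_inv] at h1
    rw [← h1, hright q ψ hqN hψ i hi]
    congr 1
    refine tsum_congr fun n => ?_
    ring
  refine ⟨F, ?_, fun q _ χ => hright q χ, fun q _ χ h1 h2 => hleft q inferInstance χ h1 h2, ?_⟩
  · intro q χ hq hqN hχ
    have : NeZero q := ⟨by omega⟩
    obtain ⟨g1, g2, g3⟩ := hF q χ inferInstance hq hqN hχ
    refine ⟨g1, fun s hs => ?_⟩
    have h5 := (n_eul m hm N η f w hf q χ s hs).2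
    rw [← g2 s hs] at h5
    exact h5
  · intro i hi1 hi2 him
    rcases lt_or_gt_of_ne him with him | him
    · -- left of the centre
      let cj : ℂ →ₗ[ℚ] ℂ := AddMonoidHom.toRatLinearMap (starRingEnd ℂ : ℂ →+* ℂ).toAddMonoidHom
      have hcj : ∀ z, cj z = (starRingEnd ℂ) z := fun z => rfl
      obtain ⟨Wr, hWr⟩ : ∃ Wr : Submodule ℚ ℂ, Wr =
        W.map (LinearMap.mulLeft ℚ ((2 * Real.pi * Complex.I : ℂ) ^ (2 * m - i))) := ⟨_, rfl⟩
      obtain ⟨Rt, hRt⟩ : ∃ Rt : Finset ℂ, Rt = Polynomial.nthRootsFinset (Nat.totient N) (1 : ℂ) :=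
        ⟨_, rfl⟩
      have hφ : 0 < Nat.totient N := Nat.totient_pos.2 hNn
      obtain ⟨W', hW'⟩ : ∃ W' : Submodule ℚ ℂ, W' = ⨆ ν : Rt, (Wr.map cj).map
        (LinearMap.mulLeft ℚ (w * ((1 / (4 * Real.pi ^ 2)) ^ (m - i) : ℝ) * (ν : ℂ))) := ⟨_, rfl⟩
      refine ⟨W', ?_, ?_⟩
      · rw [hW']
        refine Submodule.fg_iSup _ fun ν => ?_
        rw [hWr]
        exact ((hW.fg.map _).map _).map _
      · intro q _ hqN
        have hq1 : 1 ≤ q := Nat.one_le_iff_ne_zero.2 (NeZero.ne q)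
        have hqr : (0 : ℝ) < q := by exact_mod_cast hq1
        obtain ⟨v, hv1, hv2⟩ := hsymR (2 * m - i) (by omega) (by omega) q hqN
        let uN : (ZMod q)ˣ := ZMod.unitOfCoprime N hqN.symm
        have huN : (uN : ZMod q) = (N : ZMod q) := ZMod.coe_unitOfCoprime _ _
        obtain ⟨A, hA⟩ : ∃ A : ℂ, A = ((kap m N i * (q : ℝ) ^ (2 * (m - i)) : ℝ) : ℂ) := ⟨_, rfl⟩
        refine ⟨fun u => w * η (q : ZMod N) * A * (starRingEnd ℂ) (v (uN⁻¹ * u⁻¹)), ?_, ?_⟩
        · intro u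
          rw [hW']
          have hu : IsUnit (q : ZMod N) := (ZMod.isUnit_iff_coprime q N).2 hqN
          have hroot : η (q : ZMod N) ∈ Rt := by
            rw [hRt, Polynomial.mem_nthRootsFinset hφ]
            obtain ⟨x, hx⟩ := hu
            rw [← hx, ← map_pow, ← Units.val_pow_eq_pow_val, ZMod.pow_totient, Units.val_one,
              map_one]
          refine Submodule.mem_iSup_of_mem (⟨η (q : ZMod N), hroot⟩ : Rt) ?_
          have h1 := hv1 (uN⁻¹ * u⁻¹)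
          rw [← hWr] at h1
          have h2 : cj (v (uN⁻¹ * u⁻¹)) ∈ Wr.map cj := Submodule.mem_map_of_mem h1
          have h3 := (Wr.map cj).smul_mem (((2 * m - i - 1).factorial : ℚ) /
            ((i - 1).factorial : ℚ) * (N : ℚ) ^ (m - i) * (q : ℚ) ^ (2 * (m - i))) h2
          refine ⟨_, h3, ?_⟩
          rw [LinearMap.mulLeft_apply, Algebra.smul_def, hcj, hA]
          show w * (((1 / (4 * Real.pi ^ 2)) ^ (m - i) : ℝ) : ℂ) * η (q : ZMod N) *
            (((((2 * m - i - 1).factorial : ℚ) /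
            ((i - 1).factorial : ℚ) * (N : ℚ) ^ (m - i) * (q : ℚ) ^ (2 * (m - i)) : ℚ) : ℂ) *
              (starRingEnd ℂ) (v (uN⁻¹ * u⁻¹))) = _
          unfold kap
          push_cast
          rw [div_pow, div_pow, one_pow]
          ring
        · intro ψ hψ
          have h1 := hleft q inferInstance ψ hqN hψ i hi1 him
          have h2 := hv2 ψ hψ
          have h3 := Pool.Agent.W378.CY.root_number q ψ hψ (w * η (q : ZMod N)) (N : ZMod q)
          have hg0 : gaussSum ψ⁻¹ (stdAddChar (N := q)) ≠ 0 :=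
            gauss_ne_zero _ (inv_primitive ψ hψ)
          rw [← hA, ← h3] at h1
          have h4 := conj_gauss ψ
          have h5 : ψ (-(N : ZMod q)) = ψ (N : ZMod q) * ψ (-1) := by
            rw [← map_mul]
            congr 1
            ring
          have h6 : gaussSum ψ⁻¹ (stdAddChar (N := q)) * F q ψ i =
              w * η (q : ZMod N) * A * (ψ (N : ZMod q) *
                (starRingEnd ℂ) (gaussSum ψ⁻¹ (stdAddChar (N := q)) *
                  F q ψ ((2 * m - i : ℕ) : ℂ))) := by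
            rw [h1, h5, map_mul, h4]
            field_simp
          rw [h6, h2, map_sum, Finset.mul_sum, Finset.mul_sum]
          refine Fintype.sum_equiv ((Equiv.mulRight uN).trans (Equiv.inv _)) _ _ fun u => ?_
          have e1 : ((Equiv.mulRight uN).trans (Equiv.inv _)) u = (u * uN)⁻¹ := rfl
          rw [e1, map_mul]
          have e2 : uN⁻¹ * ((u * uN)⁻¹)⁻¹ = u := by
            rw [inv_inv, mul_comm u, inv_mul_cancel_left]
          have e3 : ψ⁻¹ (((u * uN)⁻¹ : (ZMod q)ˣ) : ZMod q) = ψ (N : ZMod q) * ψ (u : ZMod q) := by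
            rw [MulChar.inv_apply_eq_inv', ← huN]
            have e4 : ψ (((u * uN)⁻¹ : (ZMod q)ˣ) : ZMod q) * (ψ (uN : ZMod q) * ψ (u : ZMod q)) = 1 := by
              rw [← map_mul, ← map_mul, ← Units.val_mul, ← Units.val_mul, mul_comm uN u,
                inv_mul_cancel, Units.val_one, map_one]
            exact inv_eq_of_mul_eq_one_right e4
          have e5 : (starRingEnd ℂ) (ψ⁻¹ (u : ZMod q)) = ψ (u : ZMod q) := by
            have h7 := MulChar.star_apply' (ψ⁻¹) (u : ZMod q)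
            rw [inv_inv] at h7
            exact h7
          rw [e3, e5]
          show _ = ψ (N : ZMod q) * ψ (u : ZMod q) *
            (w * η (q : ZMod N) * A * (starRingEnd ℂ) (v (uN⁻¹ * ((u * uN)⁻¹)⁻¹)))
          rw [e2]
          ring
    · exact ⟨_, hW.fg.map _, fun q _ hqN => hsymR i (by omega) hi2 q hqN⟩

end Pool.Agent.X284.NC
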