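import Pool.Agent.X284.KS.Val
import Pool.Agent.X284.KS.SpN

/-!
The values of the primitives on vertical lines over rational numbers: all critical integers, and the
values of the L-functions at the integers in the region of absolute convergence.
-/

set_option autoImplicit false

open Complex Filter Topology Set Polynomial MatrixGroups CongruenceSubgroup ZMod

namespace Pool.Agent.X284.NC

open Pool.Agent.W192.CY (VW Vk K_VK)
open Pool.Agent.W108.TW Pool.Agent.TH936.HK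
open Pool.Agent.X284.KS

lemma Pq_degG {κ : ℕ} (q : ℕ) (u : ℤ) : (Pq κ q u).natDegree ≤ κ - 1 := by
  refine natDegree_pow_le.trans ?_
  have := natDegree_linear_le (a := (q : ℚ)) (b := -(u : ℚ))
  have h : (κ - 1) * (C (q : ℚ) * X + C (-(u : ℚ))).natDegree ≤ (κ - 1) * 1 :=
    Nat.mul_le_mul_left _ this
  omega

theorem E_valG {D κ : ℕ} (hκ : 1 ≤ κ) (hD : κ ≤ D + 1) {b : ℕ → ℂ} (hb : Bd b) {q : ℕ} (hq : 0 < q)
    (u : ℤ) {y : ℝ} (hy : 0 < y) : E D b (Pq κ q u) ((u : ℂ) / q + (y : ℂ) * Complex.I) =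
      (-1 : ℂ) ^ κ * (((κ - 1).factorial : ℕ) : ℂ) * (q : ℂ) ^ (κ - 1) /
        (2 * Real.pi * Complex.I) ^ κ *
      SV κ (fun n => b n * Complex.exp (2 * Real.pi * Complex.I * n * (u / q))) y := by
  obtain ⟨m, rfl⟩ : ∃ m, κ = m + 1 := ⟨κ - 1, by omega⟩
  simp only [Nat.add_sub_cancel]
  set z : ℂ := (u : ℂ) / q + (y : ℂ) * Complex.I with hz
  have hqc : (q : ℂ) ≠ 0 := by exact_mod_cast hq.ne'
  have hzim : 0 < z.im := by
    have : z.im = y := by
      rw [hz]
      simp [Complex.div_im]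
    rw [this]; exact hy
  have hqz : ((q : ℚ) : ℂ) * z + ((-(u : ℚ) : ℚ) : ℂ) = q * (y * Complex.I) := by
    rw [hz]
    push_cast
    field_simp
    ring
  -- the values of the derivatives
  have h1 : ∀ j : ℕ, aeval z (derivative^[j] (Pq (m + 1) q u)) =
      ((m.descFactorial j : ℕ) : ℂ) * (q : ℂ) ^ j * (q * (y * Complex.I)) ^ (m - j) := by
    intro j
    unfold Pq
    rw [iter_lin, map_mul, map_pow, aeval_lin, hqz, aeval_C, Nat.add_sub_cancel]
    show (((m.descFactorial j : ℚ) * (q : ℚ) ^ j : ℚ) : ℂ) * _ = _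
    push_cast
    ring
  unfold E
  have h2 : ∑ j ∈ Finset.range (D + 1), (-1 : ℂ) ^ j *
      (aeval z (derivative^[j] (Pq (m + 1) q u)) * Q (It (j + 1) b) z) =
      ∑ j ∈ Finset.range (m + 1), (-1 : ℂ) ^ j *
      (aeval z (derivative^[j] (Pq (m + 1) q u)) * Q (It (j + 1) b) z) := by
    symm
    apply Finset.sum_subset
    · intro j hj
      rw [Finset.mem_range] at hj ⊢
      omega
    · intro j _ hj
      rw [Finset.mem_range, not_lt] at hj
      rw [h1, Nat.descFactorial_eq_zero_iff_lt.2 (by omega)]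
      simp
  rw [h2]
  have h3 : ∀ j ∈ Finset.range (m + 1), (-1 : ℂ) ^ j *
      (aeval z (derivative^[j] (Pq (m + 1) q u)) * Q (It (j + 1) b) z) =
      ∑' n : ℕ, (-1 : ℂ) ^ j * (((m.descFactorial j : ℕ) : ℂ) * (q : ℂ) ^ j *
        (q * (y * Complex.I)) ^ (m - j) * ((b n * Complex.exp (2 * Real.pi * Complex.I * n * z)) /
        (2 * Real.pi * Complex.I * n) ^ (j + 1))) := by
    intro j _
    rw [h1, It_exp, ← tsum_mul_left, ← tsum_mul_left]
  rw [Finset.sum_congr rfl h3]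
  have hsum : ∀ j : ℕ, Summable (fun n : ℕ => (-1 : ℂ) ^ j * (((m.descFactorial j : ℕ) : ℂ) *
      (q : ℂ) ^ j * (q * (y * Complex.I)) ^ (m - j) *
      ((b n * Complex.exp (2 * Real.pi * Complex.I * n * z)) /
        (2 * Real.pi * Complex.I * n) ^ (j + 1)))) := by
    intro j
    refine Summable.mul_left _ (Summable.mul_left _ ?_)
    refine (summ (It_bd hb (j + 1)) hzim).congr fun n => ?_
    unfold It
    ring
  rw [← Summable.tsum_finsetSum (fun j _ => hsum j), SV, ← tsum_mul_left, ← tsum_neg]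
  refine tsum_congr fun n => ?_
  rcases Nat.eq_zero_or_pos n with rfl | hn
  · rw [hb.1]; simp
  · have h4 : ∀ j ∈ Finset.range (m + 1), (-1 : ℂ) ^ j * (((m.descFactorial j : ℕ) : ℂ) *
        (q : ℂ) ^ j * (q * (y * Complex.I)) ^ (m - j) *
        ((b n * Complex.exp (2 * Real.pi * Complex.I * n * z)) /
          (2 * Real.pi * Complex.I * n) ^ (j + 1))) =
        -((-1 : ℂ) ^ (m + 1) * ((m.factorial : ℕ) : ℂ) * (q : ℂ) ^ m /
          (2 * Real.pi * Complex.I) ^ (m + 1) *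
          ((b n * Complex.exp (2 * Real.pi * Complex.I * n * z)) / (n : ℂ) ^ (m + 1) *
            ((2 * Real.pi * n * y) ^ (m - j) / (((m - j).factorial : ℕ) : ℂ)))) := by
      intro j hj
      rw [Finset.mem_range] at hj
      exact coef_id m j (m - j) n hn (by omega) q y _
    rw [Finset.sum_congr rfl h4, Finset.sum_neg_distrib, neg_neg, ← Finset.mul_sum]
    congr 1
    rw [← Finset.mul_sum]
    have h5 : ∑ j ∈ Finset.range (m + 1), ((2 * Real.pi * n * y : ℂ) ^ (m - j) /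
        (((m - j).factorial : ℕ) : ℂ)) = ∑ j ∈ Finset.range (m + 1), ((2 * Real.pi * n * y : ℂ) ^ j /
        ((j.factorial : ℕ) : ℂ)) := by
      have := Finset.sum_range_reflect (fun j : ℕ => ((2 * Real.pi * n * y : ℂ) ^ j /
        ((j.factorial : ℕ) : ℂ))) (m + 1)
      rw [← this]
      refine Finset.sum_congr rfl fun j _ => ?_
      congr 2 <;> omega
    rw [h5]
    have h6 : Complex.exp (2 * Real.pi * Complex.I * n * z) =
        Complex.exp (2 * Real.pi * Complex.I * n * (u / q)) *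
          (Real.exp (-(2 * Real.pi * n * y)) : ℂ) := by
      rw [Complex.ofReal_exp, ← Complex.exp_add]
      congr 1
      rw [hz]
      push_cast
      linear_combination (2 * Real.pi * n * y : ℂ) * Complex.I_sq
    rw [h6]
    unfold Vk
    push_cast
    ring

/-- the limits of the additive twists at a critical integer `κ ≤ D + 1` -/
theorem lim_valG {D κ N M0 : ℕ} [NeZero N] (hκ : 1 ≤ κ) (hD : κ ≤ D + 1) {b b' : ℕ → ℂ} (hb : Bd b)
    (hb' : Bd b') {c1 : ℂ} {W : Submodule ℚ ℂ} (hW : Space D N M0 b b' c1 W) {q : ℕ} [NeZero q]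
    (hco : Nat.Coprime q N) (a : (ZMod q)ˣ) :
    ∃ w ∈ W.map (LinearMap.mulLeft ℚ ((2 * Real.pi * Complex.I : ℂ) ^ κ)),
      Tendsto (fun y : ℝ => SV κ (fun n => b n * stdAddChar ((a : ZMod q) * (n : ZMod q))) y)
        (𝓝[>] 0) (𝓝 w) := by
  have hq : 0 < q := Nat.pos_of_ne_zero (NeZero.ne q)
  have hqc : (q : ℂ) ≠ 0 := by exact_mod_cast hq.ne'
  have hpi : (Real.pi : ℂ) ≠ 0 := by exact_mod_cast Real.pi_ne_zero
  have hI := Complex.I_ne_zero
  set u : ℤ := ((a : ZMod q).val : ℤ) with hu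
  have h1 : Nat.Coprime (a : ZMod q).val q := ZMod.val_coe_unit_coprime a
  have h2 : Nat.Coprime q (N * (a : ZMod q).val) := Nat.Coprime.mul_right hco h1.symm
  have h3 : IsCoprime (q : ℤ) ((N * (a : ZMod q).val : ℕ) : ℤ) := by
    exact_mod_cast Nat.isCoprime_iff_coprime.2 h2
  obtain ⟨d, v, hdv⟩ := h3
  have hdet : d * q - u * (N * (-v)) = 1 := by
    push_cast at hdv
    rw [hu]
    linarith
  have hdg : (Pq κ q u).natDegree ≤ D := (Pq_degG q u).trans (by omega)
  obtain ⟨w, hw, hlim⟩ := cusp hb' hW hq hdet hdg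
  set K : ℂ := (-1 : ℂ) ^ κ * (((κ - 1).factorial : ℕ) : ℂ) * (q : ℂ) ^ (κ - 1) /
        (2 * Real.pi * Complex.I) ^ κ with hK
  have hfa : (((κ - 1).factorial : ℕ) : ℂ) ≠ 0 := by exact_mod_cast (Nat.factorial_pos (κ - 1)).ne'
  have hK0 : K ≠ 0 := by
    rw [hK]
    refine div_ne_zero (mul_ne_zero (mul_ne_zero (pow_ne_zero _ (by norm_num)) hfa)
      (pow_ne_zero _ hqc)) (pow_ne_zero _ ?_)
    simp [hpi, hI]
  refine ⟨K⁻¹ * w, ?_, ?_⟩
  · refine ⟨(((-1 : ℚ) ^ κ * (((κ - 1).factorial : ℕ) : ℚ) * (q : ℚ) ^ (κ - 1))⁻¹ : ℚ) • w,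
      W.smul_mem _ hw, ?_⟩
    rw [LinearMap.mulLeft_apply, Algebra.smul_def]
    show _ * ((((( -1 : ℚ) ^ κ * (((κ - 1).factorial : ℕ) : ℚ) * (q : ℚ) ^ (κ - 1))⁻¹ : ℚ) : ℂ) * w) = _
    rw [hK]
    push_cast
    field_simp
  · refine (hlim.const_mul K⁻¹).congr' ?_
    filter_upwards [self_mem_nhdsWithin] with y (hy : 0 < y)
    rw [E_valG hκ hD hb hq u hy, ← hK, ← mul_assoc, inv_mul_cancel₀ hK0, one_mul]
    congr 1
    funext n
    congr 1
    have e3 : ((a : ZMod q) * (n : ZMod q)) = ((u * n : ℤ) : ZMod q) := by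
      rw [hu]
      push_cast
      rw [ZMod.natCast_zmod_val]
    rw [e3, stdAddChar_coe]
    congr 1
    push_cast
    ring

/-- the limit of the smoothed series of an absolutely convergent series -/
theorem SV_lim {κ : ℕ} (hκ : 1 ≤ κ) {a : ℕ → ℂ}
    (hs : Summable (fun n : ℕ => ‖a n / (n : ℂ) ^ κ‖)) :
    Tendsto (fun y : ℝ => SV κ a y) (𝓝[>] 0) (𝓝 (∑' n : ℕ, a n / (n : ℂ) ^ κ)) := by
  obtain ⟨C, hV⟩ := h_vk κ hκ
  have hC := hV.pos
  have hpi := Real.pi_pos
  unfold SV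
  refine tendsto_tsum_of_dominated_convergence (bound := fun n : ℕ => ‖a n / (n : ℂ) ^ κ‖ * C)
    (hs.mul_right C) (fun n => ?_) ?_
  · have h1 : Tendsto (fun y : ℝ => Vk κ (2 * Real.pi * n * y)) (𝓝[>] 0) (𝓝 1) := by
      have h2 : ContinuousAt (fun y : ℝ => Vk κ (2 * Real.pi * n * y)) 0 := by
        unfold Vk
        fun_prop
      have h3 : Vk κ (2 * Real.pi * n * 0) = 1 := by
        have := hV.one 0 le_rfl
        rw [mul_zero] at this
        rw [mul_zero]
        have h4 := abs_nonpos_iff.1 this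
        linarith
      have h5 := h2.tendsto
      simp only [h3] at h5
      exact h5.mono_left nhdsWithin_le_nhds
    have h2 := ((Complex.continuous_ofReal.tendsto 1).comp h1).const_mul (a n / (n : ℂ) ^ κ)
    simpa using h2
  · filter_upwards [self_mem_nhdsWithin] with y (hy : 0 < y) n
    rw [norm_mul, Complex.norm_real, Real.norm_eq_abs]
    have h1 := hV.dec (2 * Real.pi * n * y) (by positivity)
    have h2 : Real.exp (-(2 * Real.pi * n * y / 2)) ≤ 1 := by
      rw [Real.exp_le_one_iff, neg_nonpos]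
      positivity
    have h3 : |Vk κ (2 * Real.pi * n * y)| ≤ C := h1.trans (by nlinarith)
    gcongr

/-- **The value at a critical integer in the region of absolute convergence.** -/
theorem right_val {D κ N M0 : ℕ} [NeZero N] (hκ : 1 ≤ κ) (hD : κ ≤ D + 1) {b b' : ℕ → ℂ}
    (hb : Bd b) (hb' : Bd b') (hs : Summable (fun n : ℕ => ‖b n / (n : ℂ) ^ κ‖))
    {c1 : ℂ} {W : Submodule ℚ ℂ} (hW : Space D N M0 b b' c1 W) {q : ℕ} [NeZero q]
    (hco : Nat.Coprime q N) :
    ∃ w : (ZMod q)ˣ → ℂ,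
      (∀ u, w u ∈ W.map (LinearMap.mulLeft ℚ ((2 * Real.pi * Complex.I : ℂ) ^ κ))) ∧
      ∀ (χ : DirichletCharacter ℂ q), χ.IsPrimitive →
        gaussSum χ (stdAddChar (N := q)) * ∑' n : ℕ, χ⁻¹ (n : ZMod q) * b n / (n : ℂ) ^ κ =
          ∑ u : (ZMod q)ˣ, χ (u : ZMod q) * w u := by
  choose w hw hlim using fun a : (ZMod q)ˣ => lim_valG hκ hD hb hb' hW hco a
  refine ⟨w, hw, fun χ hχ => ?_⟩
  have h1 : Tendsto (fun y : ℝ => ∑ u : (ZMod q)ˣ, χ (u : ZMod q) *
      SV κ (fun n => b n * stdAddChar ((u : ZMod q) * (n : ZMod q))) y) (𝓝[>] 0)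
      (𝓝 (∑ u : (ZMod q)ˣ, χ (u : ZMod q) * w u)) :=
    tendsto_finsetSum _ fun u _ => (hlim u).const_mul _
  have h2 : Tendsto (fun y : ℝ => gaussSum χ (stdAddChar (N := q)) *
      SV κ (fun n => χ⁻¹ (n : ZMod q) * b n) y) (𝓝[>] 0)
      (𝓝 (gaussSum χ (stdAddChar (N := q)) * ∑' n : ℕ, χ⁻¹ (n : ZMod q) * b n / (n : ℂ) ^ κ)) := by
    refine (SV_lim hκ ?_).const_mul _
    refine Summable.of_nonneg_of_le (fun _ => norm_nonneg _) (fun n => ?_) hs
    rw [mul_div_assoc, norm_mul]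
    exact mul_le_of_le_one_left (norm_nonneg _) (DirichletCharacter.norm_le_one _ _)
  refine tendsto_nhds_unique h2 (h1.congr' ?_)
  filter_upwards [self_mem_nhdsWithin] with y (hy : 0 < y)
  rw [SV_gauss hκ hb χ hχ hy]

end Pool.Agent.X284.NC
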